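import Mathlib

namespace Pool.Agent.H.MP_ea7ca7_co

abbrev P2 := EuclideanSpace ℝ (Fin 2)
abbrev P3 := EuclideanSpace ℝ (Fin 3)

/-- The closed unit square of the grid with lower left corner `c`. -/
def cell (c : ℤ × ℤ) : Set P2 :=
  {p | (c.1 : ℝ) ≤ p 0 ∧ p 0 ≤ c.1 + 1 ∧ (c.2 : ℝ) ≤ p 1 ∧ p 1 ≤ c.2 + 1}

/-- The plane region covered by a finite set of grid squares. -/
def region (A : Finset (ℤ × ℤ)) : Set P2 := ⋃ c ∈ A, cell c

/-- Two grid squares share an edge. -/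
def Adj (c d : ℤ × ℤ) : Prop := |c.1 - d.1| + |c.2 - d.2| = 1

/-- A nonempty finite set of grid squares connected through shared edges. -/
def IsPolyomino (A : Finset (ℤ × ℤ)) : Prop :=
  A.Nonempty ∧ ∀ a ∈ A, ∀ b ∈ A, Relation.ReflTransGen (fun u v => u ∈ A ∧ v ∈ A ∧ Adj u v) a b

/-- The surface of the cube `[0,l]^3`. -/
def cubeSurface (l : ℝ) : Set P3 := {q | (∀ k, 0 ≤ q k ∧ q k ≤ l) ∧ ∃ k, q k = 0 ∨ q k = l}

/-- The plane region `R` folds to a cube: it is cut by creases into finitely many convex polygons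
(convex hulls of finite sets), and one map `f`, rigid on each polygon, carries `R` onto the whole
surface of the cube and is injective on the interior of `R` (only boundary points get glued). -/
def FoldsToCube (R : Set P2) : Prop :=
  ∃ l : ℝ, 0 < l ∧ ∃ f : P2 → P3, ∃ K : Set (Set P2), K.Finite ∧ (∀ V ∈ K, V.Finite) ∧
    (⋃ V ∈ K, convexHull ℝ V) = R ∧
    (∀ V ∈ K, ∀ x ∈ convexHull ℝ V, ∀ y ∈ convexHull ℝ V, dist (f x) (f y) = dist x y) ∧
    f '' R = cubeSurface l ∧ Set.InjOn f (interior R)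

/-- A polyomino that folds to a cube. -/
def IsNet (A : Finset (ℤ × ℤ)) : Prop := IsPolyomino A ∧ FoldsToCube (region A)

/-- `P` is a rep-cube of order `k`. -/
def IsRepCube (P : Finset (ℤ × ℤ)) (k : ℕ) : Prop :=
  IsNet P ∧ ∃ Q : Fin k → Finset (ℤ × ℤ), (∀ i, IsNet (Q i)) ∧
    (∀ i j, i ≠ j → Disjoint (Q i) (Q j)) ∧ ∀ c, c ∈ P ↔ ∃ i, c ∈ Q i

/-! ### squares -/

def corners (c : ℤ × ℤ) : Set P2 :=
  {!₂[(c.1 : ℝ), (c.2 : ℝ)], !₂[(c.1 : ℝ) + 1, (c.2 : ℝ)], !₂[(c.1 : ℝ), (c.2 : ℝ) + 1],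
    !₂[(c.1 : ℝ) + 1, (c.2 : ℝ) + 1]}

lemma convex_cell (c : ℤ × ℤ) : Convex ℝ (cell c) := by
  intro x hx y hy a b ha hb hab
  obtain ⟨h1, h2, h3, h4⟩ := hx
  obtain ⟨h5, h6, h7, h8⟩ := hy
  have e : b = 1 - a := by linarith
  subst e
  refine ⟨?_, ?_, ?_, ?_⟩ <;> simp only [PiLp.add_apply, PiLp.smul_apply, smul_eq_mul] <;>
    nlinarith

lemma hull_corners (c : ℤ × ℤ) : convexHull ℝ (corners c) = cell c := by
  apply Set.Subset.antisymm
  · apply convexHull_min _ (convex_cell c)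
    intro p hp
    simp only [corners, Set.mem_insert_iff, Set.mem_singleton_iff] at hp
    rcases hp with rfl | rfl | rfl | rfl <;> simp [cell]
  · rintro p ⟨h1, h2, h3, h4⟩
    have hc := convex_convexHull ℝ (corners c)
    have m : ∀ x ∈ corners c, x ∈ convexHull ℝ (corners c) := fun x hx => subset_convexHull ℝ _ hx
    have m1 := m !₂[(c.1 : ℝ), (c.2 : ℝ)] (by simp [corners])
    have m2 := m !₂[(c.1 : ℝ) + 1, (c.2 : ℝ)] (by simp [corners])
    have m3 := m !₂[(c.1 : ℝ), (c.2 : ℝ) + 1] (by simp [corners])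
    have m4 := m !₂[(c.1 : ℝ) + 1, (c.2 : ℝ) + 1] (by simp [corners])
    have a1 := hc m1 m2 (a := 1 - (p 0 - c.1)) (b := p 0 - c.1) (by linarith) (by linarith) (by ring)
    have a2 := hc m3 m4 (a := 1 - (p 0 - c.1)) (b := p 0 - c.1) (by linarith) (by linarith) (by ring)
    have a3 := hc a1 a2 (a := 1 - (p 1 - c.2)) (b := p 1 - c.2) (by linarith) (by linarith) (by ring)
    convert a3 using 1
    ext k
    fin_cases k <;> simp <;> ring

lemma mem_region {A : Finset (ℤ × ℤ)} {p : P2} : p ∈ region A ↔ ∃ c ∈ A, p ∈ cell c := by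
  simp [region]

lemma int_eq_of {a b : ℤ} {x : ℝ} (h1 : (a : ℝ) < x) (h2 : x < a + 1) (h3 : (b : ℝ) ≤ x)
    (h4 : x ≤ b + 1) : a = b := by
  have e1 : (a : ℝ) < b + 1 := by linarith
  have e2 : (b : ℝ) < a + 1 := by linarith
  have e3 : a < b + 1 := by exact_mod_cast e1
  have e4 : b < a + 1 := by exact_mod_cast e2
  omega

lemma mem_of_interior {A : Finset (ℤ × ℤ)} {p : P2} (hp : p ∈ interior (region A)) {c : ℤ × ℤ}
    (hc : p ∈ cell c) : c ∈ A := by
  set z : P2 := !₂[(c.1 : ℝ) + 1 / 2, (c.2 : ℝ) + 1 / 2] with hz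
  have hcont : Continuous fun d : ℝ => p + d • (z - p) := by fun_prop
  have h0 : (fun d : ℝ => p + d • (z - p)) 0 ∈ interior (region A) := by simpa using hp
  have e1 : ∀ᶠ d in nhds (0 : ℝ), p + d • (z - p) ∈ interior (region A) :=
    hcont.continuousAt.eventually (isOpen_interior.mem_nhds h0)
  have e2 : ∀ᶠ d in nhdsWithin (0 : ℝ) (Set.Ioi 0), d ∈ Set.Ioo (0 : ℝ) 1 :=
    Ioo_mem_nhdsGT (by norm_num)
  obtain ⟨d, hd1, hd2, hd3⟩ := ((e1.filter_mono nhdsWithin_le_nhds).and e2).exists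
  obtain ⟨c', hc', k1, k2, k3, k4⟩ := mem_region.1 (interior_subset hd1)
  obtain ⟨h1, h2, h3, h4⟩ := hc
  simp only [hz, PiLp.add_apply, PiLp.smul_apply, PiLp.sub_apply, smul_eq_mul] at k1 k2 k3 k4
  simp at k1 k2 k3 k4
  have q1 : c.1 = c'.1 := int_eq_of (x := p 0 + d * (c.1 + 2⁻¹ - p 0)) (by nlinarith) (by nlinarith) k1 k2
  have q2 : c.2 = c'.2 := int_eq_of (x := p 1 + d * (c.2 + 2⁻¹ - p 1)) (by nlinarith) (by nlinarith) k3 k4
  have : c = c' := Prod.ext q1 q2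
  rwa [this]

/-! ### similarities -/

lemma folds_sim {R : Set P2} (h : FoldsToCube R) (s : ℝ) (hs : 0 < s) (t : P2) :
    FoldsToCube ((fun p => s • p + t) '' R) := by
  obtain ⟨l, hl, f, K, hK, hV, hU, hI, hS, hJ⟩ := h
  let φ : P2 ≃ₜ P2 := (Homeomorph.smulOfNeZero s hs.ne').trans (Homeomorph.addRight t)
  have hφ : ∀ p, φ p = s • p + t := fun p => rfl
  have hφ' : (fun p => s • p + t) = φ := rfl
  let ψ : P2 →ᵃ[ℝ] P2 := (AffineMap.const ℝ P2 t) + s • AffineMap.id ℝ P2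
  have hψ : (ψ : P2 → P2) = φ := by
    funext p; simp [ψ, hφ, add_comm]
  have hh : ∀ V : Set P2, convexHull ℝ (φ '' V) = φ '' convexHull ℝ V := by
    intro V; rw [← hψ, AffineMap.image_convexHull]
  have hd : ∀ x y, dist (φ x) (φ y) = s * dist x y := by
    intro x y; rw [hφ, hφ, dist_add_right, dist_smul₀, Real.norm_of_nonneg hs.le]
  rw [hφ']
  refine ⟨s * l, by positivity, fun q => s • f (φ.symm q), (fun V => φ '' V) '' K, hK.image _, ?_, ?_,
    ?_, ?_, ?_⟩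
  · rintro _ ⟨V, hV', rfl⟩; exact (hV V hV').image _
  · rw [← hU]; simp only [Set.biUnion_image, hh, Set.image_iUnion]
  · rintro _ ⟨V, hV', rfl⟩ x hx y hy
    rw [hh] at hx hy
    obtain ⟨x, hx, rfl⟩ := hx
    obtain ⟨y, hy, rfl⟩ := hy
    simp only [Homeomorph.symm_apply_apply]
    rw [hd, dist_smul₀, Real.norm_of_nonneg hs.le, hI V hV' x hx y hy]
  · rw [Set.image_image]
    simp only [Homeomorph.symm_apply_apply]
    rw [← Set.image_image (fun q : P3 => s • q) f, hS]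
    ext q
    constructor
    · rintro ⟨r, ⟨h1, k, h2⟩, rfl⟩
      refine ⟨fun j => ?_, k, ?_⟩
      · simp only [PiLp.smul_apply, smul_eq_mul]
        exact ⟨mul_nonneg hs.le (h1 j).1, mul_le_mul_of_nonneg_left (h1 j).2 hs.le⟩
      · simp only [PiLp.smul_apply, smul_eq_mul]
        rcases h2 with h2 | h2 <;> simp [h2]
    · rintro ⟨h1, k, h2⟩
      refine ⟨s⁻¹ • q, ⟨fun j => ?_, k, ?_⟩, by simp [smul_smul, hs.ne']⟩
      · simp only [PiLp.smul_apply, smul_eq_mul]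
        refine ⟨mul_nonneg (inv_nonneg.2 hs.le) (h1 j).1, ?_⟩
        rw [inv_mul_le_iff₀ hs]; exact (h1 j).2
      · simp only [PiLp.smul_apply, smul_eq_mul]
        rcases h2 with h2 | h2
        · simp [h2]
        · right; rw [h2]; field_simp
  · rw [← φ.image_interior]
    rintro _ ⟨x, hx, rfl⟩ _ ⟨y, hy, rfl⟩ hxy
    simp only [Homeomorph.symm_apply_apply] at hxy
    rw [hJ hx hy (smul_right_injective _ hs.ne' hxy)]

/-- Scale by `m` and translate by `t`. -/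
def sim (m : ℕ) (t : ℤ × ℤ) (A : Finset (ℤ × ℤ)) : Finset (ℤ × ℤ) :=
  A.biUnion fun a => (Finset.range m ×ˢ Finset.range m).image
    fun d => (t.1 + m * a.1 + d.1, t.2 + m * a.2 + d.2)

lemma mem_sim {m : ℕ} (hm : 0 < m) {t : ℤ × ℤ} {A : Finset (ℤ × ℤ)} {c : ℤ × ℤ} :
    c ∈ sim m t A ↔ ((c.1 - t.1) / m, (c.2 - t.2) / m) ∈ A := by
  have hm' : (0 : ℤ) < m := by exact_mod_cast hm
  simp only [sim, Finset.mem_biUnion, Finset.mem_image, Finset.mem_product, Finset.mem_range]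
  constructor
  · rintro ⟨a, ha, d, ⟨h1, h2⟩, rfl⟩
    have k : ∀ (u x : ℤ) (e : ℕ), e < m → (u + m * x + e - u) / m = x := by
      intro u x e he
      rw [show u + m * x + e - u = e + m * x by ring, Int.add_mul_ediv_left _ _ hm'.ne',
        Int.ediv_eq_zero_of_lt (by positivity) (by exact_mod_cast he), zero_add]
    simp only [k _ _ _ h1, k _ _ _ h2]
    exact ha
  · intro h
    have k : ∀ u : ℤ, (u % m).toNat < m ∧ ((u % m).toNat : ℤ) = u % m := by
      intro u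
      have a1 := Int.emod_nonneg u hm'.ne'
      have a2 := Int.emod_lt_of_pos u hm'
      omega
    refine ⟨_, h, (((c.1 - t.1) % m).toNat, ((c.2 - t.2) % m).toNat), ⟨(k _).1, (k _).1⟩, ?_⟩
    have a1 := Int.mul_ediv_add_emod (c.1 - t.1) m
    have a2 := Int.mul_ediv_add_emod (c.2 - t.2) m
    ext
    · simp only [(k _).2]; linarith
    · simp only [(k _).2]; linarith

lemma exists_sub {m : ℕ} (hm : 0 < m) (a : ℤ) (x : ℝ) (h1 : (a : ℝ) ≤ x) (h2 : x ≤ a + 1) :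
    ∃ c : ℤ, c / m = a ∧ (c : ℝ) ≤ m * x ∧ m * x ≤ c + 1 := by
  have hm' : (0 : ℤ) < m := by exact_mod_cast hm
  have hr : (0 : ℝ) < m := by exact_mod_cast hm
  by_cases h : x = a + 1
  · refine ⟨m * a + (m - 1), ?_, ?_, ?_⟩
    · rw [add_comm, Int.add_mul_ediv_left _ _ hm'.ne', Int.ediv_eq_zero_of_lt (by omega) (by omega),
        zero_add]
    · rw [h]; push_cast; nlinarith
    · rw [h]; push_cast; nlinarith
  · have h3 : x < a + 1 := lt_of_le_of_ne h2 h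
    refine ⟨⌊m * x⌋, ?_, Int.floor_le _, (Int.lt_floor_add_one _).le⟩
    have b1 : m * a ≤ ⌊m * x⌋ := by
      rw [Int.le_floor]; push_cast; nlinarith
    have b2 : ⌊m * x⌋ < (a + 1) * m := by
      rw [Int.floor_lt]; push_cast; nlinarith
    have b3 := (Int.ediv_lt_iff_lt_mul hm').2 b2
    have b4 := (Int.le_ediv_iff_mul_le hm').2 (show a * m ≤ ⌊m * x⌋ by linarith)
    omega

lemma div_bounds {m : ℕ} (hm : 0 < m) (c : ℤ) (y : ℝ) (h1 : (c : ℝ) ≤ y) (h2 : y ≤ c + 1) :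
    ((c / m : ℤ) : ℝ) ≤ (m : ℝ)⁻¹ * y ∧ (m : ℝ)⁻¹ * y ≤ ((c / m : ℤ) : ℝ) + 1 := by
  have hm' : (0 : ℤ) < m := by exact_mod_cast hm
  have hr : (0 : ℝ) < m := by exact_mod_cast hm
  have a1 := Int.mul_ediv_add_emod c m
  have a2 := Int.emod_nonneg c hm'.ne'
  have a3 := Int.emod_lt_of_pos c hm'
  have b1 : (m : ℤ) * (c / m) ≤ c := by linarith
  have b2 : c + 1 ≤ (m : ℤ) * (c / m) + m := by linarith
  have c1 : (m : ℝ) * ((c / m : ℤ) : ℝ) ≤ c := by exact_mod_cast b1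
  have c2 : (c : ℝ) + 1 ≤ (m : ℝ) * ((c / m : ℤ) : ℝ) + m := by exact_mod_cast b2
  constructor
  · rw [le_inv_mul_iff₀ hr]; linarith
  · rw [inv_mul_le_iff₀ hr]; linarith

lemma region_sim {m : ℕ} (hm : 0 < m) (t : ℤ × ℤ) (A : Finset (ℤ × ℤ)) :
    region (sim m t A) = (fun p => (m : ℝ) • p + !₂[(t.1 : ℝ), (t.2 : ℝ)]) '' region A := by
  have hr : (0 : ℝ) < m := by exact_mod_cast hm
  ext p
  constructor
  · intro hp
    obtain ⟨c, hc, h1, h2, h3, h4⟩ := mem_region.1 hp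
    rw [mem_sim hm] at hc
    refine ⟨(m : ℝ)⁻¹ • (p - !₂[(t.1 : ℝ), (t.2 : ℝ)]), mem_region.2 ⟨_, hc, ?_⟩, ?_⟩
    · have u := div_bounds hm (c.1 - t.1) (p 0 - t.1) (by push_cast; linarith) (by push_cast; linarith)
      have v := div_bounds hm (c.2 - t.2) (p 1 - t.2) (by push_cast; linarith) (by push_cast; linarith)
      refine ⟨?_, ?_, ?_, ?_⟩
      · simpa using u.1
      · simpa using u.2
      · simpa using v.1
      · simpa using v.2
    · simp [smul_smul, hr.ne']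
  · rintro ⟨q, hq, rfl⟩
    obtain ⟨a, ha, h1, h2, h3, h4⟩ := mem_region.1 hq
    obtain ⟨c1, e1, e2, e3⟩ := exists_sub hm a.1 (q 0) h1 h2
    obtain ⟨c2, e4, e5, e6⟩ := exists_sub hm a.2 (q 1) h3 h4
    refine mem_region.2 ⟨(c1 + t.1, c2 + t.2), ?_, ?_, ?_, ?_, ?_⟩
    · rw [mem_sim hm]; simpa [e1, e4] using ha
    all_goals simp; linarith

lemma poly_sim {m : ℕ} (hm : 0 < m) (t : ℤ × ℤ) {A : Finset (ℤ × ℤ)} (h : IsPolyomino A) :
    IsPolyomino (sim m t A) := by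
  have hm' : (0 : ℤ) < m := by exact_mod_cast hm
  set r := fun u v => u ∈ sim m t A ∧ v ∈ sim m t A ∧ Adj u v with hr
  have hsym : ∀ u v, r u v → r v u := by
    rintro u v ⟨h1, h2, h3⟩
    refine ⟨h2, h1, ?_⟩
    unfold Adj at h3 ⊢
    rw [abs_sub_comm v.1, abs_sub_comm v.2]; exact h3
  have hsym' : ∀ u v, Relation.ReflTransGen r u v → Relation.ReflTransGen r v u := by
    intro u v huv
    induction huv with
    | refl => exact .refl
    | tail _ h2 ih => exact Relation.ReflTransGen.head (hsym _ _ h2) ih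
  have hin : ∀ a ∈ A, ∀ d e : ℕ, d < m → e < m →
      (t.1 + m * a.1 + d, t.2 + m * a.2 + e) ∈ sim m t A := by
    intro a ha d e hd he
    simp only [sim, Finset.mem_biUnion, Finset.mem_image, Finset.mem_product, Finset.mem_range]
    exact ⟨a, ha, (d, e), ⟨hd, he⟩, rfl⟩
  have h1 : ∀ a ∈ A, ∀ d e : ℕ, d < m → e < m → Relation.ReflTransGen r
      (t.1 + m * a.1 + (0 : ℕ), t.2 + m * a.2 + (0 : ℕ)) (t.1 + m * a.1 + d, t.2 + m * a.2 + e) := by
    intro a ha d e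
    induction d with
    | zero =>
      intro hd
      induction e with
      | zero => intro _; exact .refl
      | succ e ih =>
        intro he
        refine (ih (by omega)).tail ⟨hin a ha _ _ hd (by omega), hin a ha _ _ hd he, ?_⟩
        simp [Adj]
    | succ d ih =>
      intro hd he
      refine (ih (by omega) he).tail ⟨hin a ha _ _ (by omega) he, hin a ha _ _ hd he, ?_⟩
      simp [Adj]
  have h2 : ∀ a ∈ A, ∀ b ∈ A, (b.1 = a.1 + 1 ∧ b.2 = a.2) ∨ (b.1 = a.1 ∧ b.2 = a.2 + 1) →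
      Relation.ReflTransGen r (t.1 + m * a.1 + (0 : ℕ), t.2 + m * a.2 + (0 : ℕ))
        (t.1 + m * b.1 + (0 : ℕ), t.2 + m * b.2 + (0 : ℕ)) := by
    intro a ha b hb hab
    obtain ⟨n, rfl⟩ : ∃ n, m = n + 1 := ⟨m - 1, by omega⟩
    rcases hab with ⟨e1, e2⟩ | ⟨e1, e2⟩
    · refine (h1 a ha n 0 (by omega) hm).tail ⟨hin a ha _ _ (by omega) hm, hin b hb _ _ hm hm, ?_⟩
      simp only [Adj, e1, e2]
      push_cast
      ring_nf
      simp
    · refine (h1 a ha 0 n hm (by omega)).tail ⟨hin a ha _ _ hm (by omega), hin b hb _ _ hm hm, ?_⟩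
      simp only [Adj, e1, e2]
      push_cast
      ring_nf
      simp
  have h3 : ∀ a b, Relation.ReflTransGen (fun u v => u ∈ A ∧ v ∈ A ∧ Adj u v) a b →
      Relation.ReflTransGen r (t.1 + m * a.1 + (0 : ℕ), t.2 + m * a.2 + (0 : ℕ))
        (t.1 + m * b.1 + (0 : ℕ), t.2 + m * b.2 + (0 : ℕ)) := by
    intro a b hab
    induction hab with
    | refl => exact .refl
    | @tail u v _ huv ih =>
      obtain ⟨hu, hv, hadj⟩ := huv
      refine ih.trans ?_
      unfold Adj at hadj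
      by_cases hc : (v.1 = u.1 + 1 ∧ v.2 = u.2) ∨ (v.1 = u.1 ∧ v.2 = u.2 + 1)
      · exact h2 u hu v hv hc
      · refine hsym' _ _ (h2 v hv u hu ?_)
        rcases abs_cases (u.1 - v.1) with k | k <;> rcases abs_cases (u.2 - v.2) with k' | k' <;> omega
  constructor
  · obtain ⟨a, ha⟩ := h.1
    exact ⟨_, hin a ha 0 0 hm hm⟩
  · intro c hc c' hc'
    simp only [sim, Finset.mem_biUnion, Finset.mem_image, Finset.mem_product, Finset.mem_range] at hc hc'
    obtain ⟨a, ha, d, ⟨d1, d2⟩, rfl⟩ := hc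
    obtain ⟨b, hb, e, ⟨e1, e2⟩, rfl⟩ := hc'
    exact ((hsym' _ _ (h1 a ha _ _ d1 d2)).trans (h3 a b (h.2 a ha b hb))).trans (h1 b hb _ _ e1 e2)

lemma net_sim {m : ℕ} (hm : 0 < m) (t : ℤ × ℤ) {A : Finset (ℤ × ℤ)} (h : IsNet A) :
    IsNet (sim m t A) := by
  refine ⟨poly_sim hm t h.1, ?_⟩
  rw [region_sim hm]
  exact folds_sim h.2 m (by exact_mod_cast hm) _

end Pool.Agent.H.MP_ea7ca7_co
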