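import Pool.Agent.H.MP_ea7ca7_co.A

namespace Pool.Agent.H.MP_ea7ca7_co

abbrev T3 := ℤ × ℤ × ℤ

structure D where
  i : ℤ
  j : ℤ
  x : T3
  y : T3
  z : T3

def val (t : T3) (u v : ℝ) : ℝ := t.1 + t.2.1 * u + t.2.2 * v

noncomputable def g (d : D) (p : P2) : P3 :=
  !₂[val d.x (p 0 - d.i) (p 1 - d.j), val d.y (p 0 - d.i) (p 1 - d.j), val d.z (p 0 - d.i) (p 1 - d.j)]

def ty (t : T3) : Prop :=
  (t.2.1 = 0 ∧ t.2.2 = 0) ∨ (t.2.1 = 1 ∧ t.2.2 = 0) ∨ (t.2.1 = -1 ∧ t.2.2 = 0) ∨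
    (t.2.1 = 0 ∧ t.2.2 = 1) ∨ (t.2.1 = 0 ∧ t.2.2 = -1)

instance (t : T3) : Decidable (ty t) := by unfold ty; infer_instance

def rng (l : ℕ) (t : T3) : Prop :=
  0 ≤ t.1 ∧ t.1 ≤ l ∧ 0 ≤ t.1 + t.2.1 + t.2.2 ∧ t.1 + t.2.1 + t.2.2 ≤ l

instance (l : ℕ) (t : T3) : Decidable (rng l t) := by unfold rng; infer_instance

def fc (l : ℕ) (t : T3) : Prop := t.2.1 = 0 ∧ t.2.2 = 0 ∧ (t.1 = 0 ∨ t.1 = l)

instance (l : ℕ) (t : T3) : Decidable (fc l t) := by unfold fc; infer_instance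

def frame (l : ℕ) (d : D) : Prop :=
  ty d.x ∧ ty d.y ∧ ty d.z ∧ d.x.2.1 * d.x.2.1 + d.y.2.1 * d.y.2.1 + d.z.2.1 * d.z.2.1 = 1 ∧
    d.x.2.2 * d.x.2.2 + d.y.2.2 * d.y.2.2 + d.z.2.2 * d.z.2.2 = 1 ∧
    d.x.2.1 * d.x.2.2 + d.y.2.1 * d.y.2.2 + d.z.2.1 * d.z.2.2 = 0 ∧
    rng l d.x ∧ rng l d.y ∧ rng l d.z ∧ (fc l d.x ∨ fc l d.y ∨ fc l d.z)

instance (l : ℕ) (d : D) : Decidable (frame l d) := by unfold frame; infer_instance

def ag (d d' : D) (t t' : T3) : Prop :=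
  t.1 + t.2.1 * (max d.i d'.i - d.i) + t.2.2 * (max d.j d'.j - d.j) =
      t'.1 + t'.2.1 * (max d.i d'.i - d'.i) + t'.2.2 * (max d.j d'.j - d'.j) ∧
    (d.i = d'.i → t.2.1 = t'.2.1) ∧ (d.j = d'.j → t.2.2 = t'.2.2)

instance (d d' : D) (t t' : T3) : Decidable (ag d d' t t') := by unfold ag; infer_instance

def agree (d d' : D) : Prop :=
  d.i ≤ d'.i + 1 → d'.i ≤ d.i + 1 → d.j ≤ d'.j + 1 → d'.j ≤ d.j + 1 →
    ag d d' d.x d'.x ∧ ag d d' d.y d'.y ∧ ag d d' d.z d'.z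

instance (d d' : D) : Decidable (agree d d') := by unfold agree; infer_instance

def code (t : T3) (e1 e2 : ℤ) : ℤ := 2 * t.1 + t.2.1 * e1 + t.2.2 * e2

def has (L : List D) (i j : ℤ) : Prop := ∃ d ∈ L, d.i = i ∧ d.j = j

instance (L : List D) (i j : ℤ) : Decidable (has L i j) := by unfold has; infer_instance

def valid (L : List D) (d : D) (e1 e2 : ℤ) : Prop :=
  (e1 = 0 → has L (d.i - 1) d.j) ∧ (e2 = 0 → has L d.i (d.j - 1)) ∧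
    (e1 = 0 → e2 = 0 → has L (d.i - 1) (d.j - 1))

instance (L : List D) (d : D) (e1 e2 : ℤ) : Decidable (valid L d e1 e2) := by unfold valid; infer_instance

def inj (L : List D) : Prop :=
  ∀ d ∈ L, ∀ e1 ∈ [(0 : ℤ), 1], ∀ e2 ∈ [(0 : ℤ), 1], valid L d e1 e2 →
    ∀ d' ∈ L, ∀ e1' ∈ [(0 : ℤ), 1], ∀ e2' ∈ [(0 : ℤ), 1], code d.x e1 e2 = code d'.x e1' e2' →
      code d.y e1 e2 = code d'.y e1' e2' → code d.z e1 e2 = code d'.z e1' e2' → valid L d' e1' e2' →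
        d.i = d'.i ∧ d.j = d'.j

instance (L : List D) : Decidable (inj L) := by unfold inj; infer_instance

def hit (L : List D) (a b c : ℤ) : Prop :=
  ∃ d ∈ L, code d.x 1 1 = a ∧ code d.y 1 1 = b ∧ code d.z 1 1 = c

instance (L : List D) (a b c : ℤ) : Decidable (hit L a b c) := by unfold hit; infer_instance

def surj (l : ℕ) (L : List D) : Prop :=
  ∀ u ∈ List.range l, ∀ v ∈ List.range l, ∀ w ∈ [0, l],
    hit L (2 * w) (2 * u + 1) (2 * v + 1) ∧ hit L (2 * u + 1) (2 * w) (2 * v + 1) ∧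
      hit L (2 * u + 1) (2 * v + 1) (2 * w)

instance (l : ℕ) (L : List D) : Decidable (surj l L) := by unfold surj; infer_instance

def cellsOf (L : List D) : Finset (ℤ × ℤ) := (L.map fun d => (d.i, d.j)).toFinset

lemma mem_cellsOf {L : List D} {c : ℤ × ℤ} : c ∈ cellsOf L ↔ has L c.1 c.2 := by
  simp [cellsOf, has, Prod.ext_iff]

lemma g_dist {l : ℕ} {d : D} (h : frame l d) (p q : P2) : dist (g d p) (g d q) = dist p q := by
  obtain ⟨-, -, -, h1, h2, h3, -⟩ := h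
  have h1' : (d.x.2.1 : ℝ) * d.x.2.1 + d.y.2.1 * d.y.2.1 + d.z.2.1 * d.z.2.1 = 1 := by exact_mod_cast h1
  have h2' : (d.x.2.2 : ℝ) * d.x.2.2 + d.y.2.2 * d.y.2.2 + d.z.2.2 * d.z.2.2 = 1 := by exact_mod_cast h2
  have h3' : (d.x.2.1 : ℝ) * d.x.2.2 + d.y.2.1 * d.y.2.2 + d.z.2.1 * d.z.2.2 = 0 := by exact_mod_cast h3
  rw [EuclideanSpace.dist_eq, EuclideanSpace.dist_eq]
  congr 1
  simp only [Fin.sum_univ_three, Fin.sum_univ_two, Real.dist_eq, sq_abs, g, val]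
  simp
  linear_combination (p 0 - q 0) ^ 2 * h1' + (p 1 - q 1) ^ 2 * h2' + 2 * (p 0 - q 0) * (p 1 - q 1) * h3'

lemma val_rng {l : ℕ} {t : T3} (h : ty t) (hr : rng l t) {u v : ℝ} (u0 : 0 ≤ u) (u1 : u ≤ 1)
    (v0 : 0 ≤ v) (v1 : v ≤ 1) : 0 ≤ val t u v ∧ val t u v ≤ l := by
  obtain ⟨r1, r2, r3, r4⟩ := hr
  have r1' : (0 : ℝ) ≤ t.1 := by exact_mod_cast r1
  have r2' : (t.1 : ℝ) ≤ l := by exact_mod_cast r2
  have r3' : (0 : ℝ) ≤ t.1 + t.2.1 + t.2.2 := by exact_mod_cast r3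
  have r4' : (t.1 : ℝ) + t.2.1 + t.2.2 ≤ l := by exact_mod_cast r4
  unfold val
  rcases h with ⟨a, b⟩ | ⟨a, b⟩ | ⟨a, b⟩ | ⟨a, b⟩ | ⟨a, b⟩ <;> rw [a, b] at r3' r4' ⊢ <;>
    push_cast at r3' r4' ⊢ <;> constructor <;> linarith

lemma g_mem {l : ℕ} {d : D} (h : frame l d) {p : P2} (hp : p ∈ cell (d.i, d.j)) :
    g d p ∈ cubeSurface l := by
  obtain ⟨t1, t2, t3, -, -, -, r1, r2, r3, hf⟩ := h
  obtain ⟨h1, h2, h3, h4⟩ := hp
  simp only at h1 h2 h3 h4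
  have k : ∀ t, ty t → rng l t → 0 ≤ val t (p 0 - d.i) (p 1 - d.j) ∧ val t (p 0 - d.i) (p 1 - d.j) ≤ l :=
    fun t a b => val_rng a b (by linarith) (by linarith) (by linarith) (by linarith)
  have k2 : ∀ t, fc l t → val t (p 0 - d.i) (p 1 - d.j) = 0 ∨ val t (p 0 - d.i) (p 1 - d.j) = l := by
    rintro t ⟨a, b, c | c⟩ <;> simp [val, a, b, c]
  refine ⟨fun j => ?_, ?_⟩
  · fin_cases j
    · exact k _ t1 r1
    · exact k _ t2 r2
    · exact k _ t3 r3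
  · rcases hf with hf | hf | hf
    · exact ⟨0, k2 _ hf⟩
    · exact ⟨1, k2 _ hf⟩
    · exact ⟨2, k2 _ hf⟩

lemma max_aux {i i' : ℤ} {x : ℝ} (h1 : (i : ℝ) ≤ x) (h2 : x ≤ i + 1) (h3 : (i' : ℝ) ≤ x)
    (h4 : x ≤ i' + 1) : i ≤ i' + 1 ∧ i' ≤ i + 1 ∧ (i = i' ∨ x = (max i i' : ℤ)) := by
  have a1 : i ≤ i' + 1 := by have : (i : ℝ) ≤ i' + 1 := by linarith
                             exact_mod_cast this
  have a2 : i' ≤ i + 1 := by have : (i' : ℝ) ≤ i + 1 := by linarith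
                             exact_mod_cast this
  refine ⟨a1, a2, ?_⟩
  rcases lt_trichotomy i i' with h | h | h
  · right
    have : i' = i + 1 := by omega
    rw [max_eq_right h.le]; subst this; push_cast at *; linarith
  · exact Or.inl h
  · right
    have : i = i' + 1 := by omega
    rw [max_eq_left h.le]; subst this; push_cast at *; linarith

lemma val_ag {d d' : D} {t t' : T3} (h : ag d d' t t') {x y : ℝ}
    (hx : d.i = d'.i ∨ x = (max d.i d'.i : ℤ)) (hy : d.j = d'.j ∨ y = (max d.j d'.j : ℤ)) :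
    val t (x - d.i) (y - d.j) = val t' (x - d'.i) (y - d'.j) := by
  obtain ⟨h1, h2, h3⟩ := h
  have h1' : (t.1 : ℝ) + t.2.1 * ((max d.i d'.i : ℤ) - d.i) + t.2.2 * ((max d.j d'.j : ℤ) - d.j) =
      t'.1 + t'.2.1 * ((max d.i d'.i : ℤ) - d'.i) + t'.2.2 * ((max d.j d'.j : ℤ) - d'.j) := by
    exact_mod_cast h1
  have a : ((t.2.1 : ℝ) - t'.2.1) * (x - (max d.i d'.i : ℤ)) = 0 := by
    rcases hx with hx | hx
    · rw [h2 hx]; simp
    · rw [hx]; simp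
  have b : ((t.2.2 : ℝ) - t'.2.2) * (y - (max d.j d'.j : ℤ)) = 0 := by
    rcases hy with hy | hy
    · rw [h3 hy]; simp
    · rw [hy]; simp
  unfold val
  linear_combination h1' + a + b

lemma g_agree {d d' : D} (h : agree d d') {p : P2} (hp : p ∈ cell (d.i, d.j))
    (hp' : p ∈ cell (d'.i, d'.j)) : g d p = g d' p := by
  obtain ⟨h1, h2, h3, h4⟩ := hp
  obtain ⟨h5, h6, h7, h8⟩ := hp'
  obtain ⟨a1, a2, a3⟩ := max_aux h1 h2 h5 h6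
  obtain ⟨b1, b2, b3⟩ := max_aux h3 h4 h7 h8
  obtain ⟨c1, c2, c3⟩ := h a1 a2 b1 b2
  unfold g
  rw [val_ag c1 a3 b3, val_ag c2 a3 b3, val_ag c3 a3 b3]

lemma two_hit {t t' : T3} (h : ty t) (h' : ty t') (ha : t.2.1 * t.2.1 + t'.2.1 * t'.2.1 = 1)
    (hb : t.2.2 * t.2.2 + t'.2.2 * t'.2.2 = 1) {u v : ℤ} (hu : code t 1 1 = 2 * u + 1)
    (hv : code t' 1 1 = 2 * v + 1) {r s : ℝ} (r0 : (u : ℝ) ≤ r) (r1 : r ≤ u + 1) (s0 : (v : ℝ) ≤ s)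
    (s1 : s ≤ v + 1) : ∃ a b : ℝ, 0 ≤ a ∧ a ≤ 1 ∧ 0 ≤ b ∧ b ≤ 1 ∧ val t a b = r ∧ val t' a b = s := by
  unfold code at hu hv
  have hu' : 2 * (t.1 : ℝ) + t.2.1 * 1 + t.2.2 * 1 = 2 * u + 1 := by exact_mod_cast hu
  have hv' : 2 * (t'.1 : ℝ) + t'.2.1 * 1 + t'.2.2 * 1 = 2 * v + 1 := by exact_mod_cast hv
  refine ⟨t.2.1 * (r - t.1) + t'.2.1 * (s - t'.1), t.2.2 * (r - t.1) + t'.2.2 * (s - t'.1), ?_⟩
  unfold val
  rcases h with ⟨a, b⟩ | ⟨a, b⟩ | ⟨a, b⟩ | ⟨a, b⟩ | ⟨a, b⟩ <;>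
    rcases h' with ⟨a', b'⟩ | ⟨a', b'⟩ | ⟨a', b'⟩ | ⟨a', b'⟩ | ⟨a', b'⟩ <;>
    rw [a, a'] at ha <;> rw [b, b'] at hb <;>
    first
    | (exfalso; omega)
    | (rw [a, b] at hu'; rw [a', b'] at hv'; rw [a, b, a', b']; push_cast at hu' hv' ⊢
       refine ⟨?_, ?_, ?_, ?_, ?_, ?_⟩ <;> linarith)

lemma zero_hit {t : T3} (h : ty t) {w : ℤ} (hw : code t 1 1 = 2 * w) :
    t.2.1 = 0 ∧ t.2.2 = 0 ∧ t.1 = w := by
  unfold code at hw
  unfold ty at h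
  omega

lemma exists_unit {l : ℕ} (hl : 0 < l) {r : ℝ} (h0 : 0 ≤ r) (h1 : r ≤ l) :
    ∃ u ∈ List.range l, ((u : ℤ) : ℝ) ≤ r ∧ r ≤ ((u : ℤ) : ℝ) + 1 := by
  by_cases h : r = l
  · refine ⟨l - 1, by simp; omega, ?_⟩
    obtain ⟨n, rfl⟩ : ∃ n, l = n + 1 := ⟨l - 1, by omega⟩
    rw [h]; simp
  · have h2 : r < l := lt_of_le_of_ne h1 h
    refine ⟨⌊r⌋₊, by simpa using (Nat.floor_lt h0).2 h2, ?_, ?_⟩
    · simpa using Nat.floor_le h0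
    · simpa using (Nat.lt_floor_add_one r).le

lemma g_surj {l : ℕ} (hl : 0 < l) {L : List D} (hf : ∀ d ∈ L, frame l d) (hs : surj l L) {q : P3}
    (hq : q ∈ cubeSurface l) : ∃ d ∈ L, ∃ p ∈ cell (d.i, d.j), g d p = q := by
  obtain ⟨h1, k, hk⟩ := hq
  obtain ⟨w, hw, hw'⟩ : ∃ w ∈ [0, l], q k = ((w : ℤ) : ℝ) := by
    rcases hk with hk | hk
    · exact ⟨0, by simp, by simpa using hk⟩
    · exact ⟨l, by simp, by simpa using hk⟩
  obtain ⟨u0, a0, b0, c0⟩ := exists_unit hl (h1 0).1 (h1 0).2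
  obtain ⟨u1, a1, b1, c1⟩ := exists_unit hl (h1 1).1 (h1 1).2
  obtain ⟨u2, a2, b2, c2⟩ := exists_unit hl (h1 2).1 (h1 2).2
  have fin : ∀ (d : D) (a b : ℝ), 0 ≤ a → a ≤ 1 → 0 ≤ b → b ≤ 1 → val d.x a b = q 0 →
      val d.y a b = q 1 → val d.z a b = q 2 → ∃ p ∈ cell (d.i, d.j), g d p = q := by
    intro d a b e1 e2 e3 e4 e5 e6 e7
    refine ⟨!₂[a + d.i, b + d.j], ⟨?_, ?_, ?_, ?_⟩, ?_⟩
    · simpa using e1
    · simp; linarith
    · simpa using e3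
    · simp; linarith
    · ext j
      fin_cases j <;> simp [g, e5, e6, e7]
  fin_cases k
  · obtain ⟨d, hd, x1, x2, x3⟩ := (hs u1 a1 u2 a2 w hw).1
    obtain ⟨t1, t2, t3, n1, n2, -⟩ := hf d hd
    obtain ⟨z1, z2, z3⟩ := zero_hit t1 x1
    obtain ⟨a, b, e1, e2, e3, e4, e5, e6⟩ := two_hit t2 t3 (by rw [z1] at n1; linarith)
      (by rw [z2] at n2; linarith) x2 x3 b1 c1 b2 c2
    exact ⟨d, hd, fin d a b e1 e2 e3 e4 (by simp [val, z1, z2, z3]; simpa using hw'.symm) e5 e6⟩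
  · obtain ⟨d, hd, x1, x2, x3⟩ := (hs u0 a0 u2 a2 w hw).2.1
    obtain ⟨t1, t2, t3, n1, n2, -⟩ := hf d hd
    obtain ⟨z1, z2, z3⟩ := zero_hit t2 x2
    obtain ⟨a, b, e1, e2, e3, e4, e5, e6⟩ := two_hit t1 t3 (by rw [z1] at n1; linarith)
      (by rw [z2] at n2; linarith) x1 x3 b0 c0 b2 c2
    exact ⟨d, hd, fin d a b e1 e2 e3 e4 e5 (by simp [val, z1, z2, z3]; simpa using hw'.symm) e6⟩
  · obtain ⟨d, hd, x1, x2, x3⟩ := (hs u0 a0 u1 a1 w hw).2.2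
    obtain ⟨t1, t2, t3, n1, n2, -⟩ := hf d hd
    obtain ⟨z1, z2, z3⟩ := zero_hit t3 x3
    obtain ⟨a, b, e1, e2, e3, e4, e5, e6⟩ := two_hit t1 t2 (by rw [z1] at n1; linarith)
      (by rw [z2] at n2; linarith) x1 x2 b0 c0 b1 c1
    exact ⟨d, hd, fin d a b e1 e2 e3 e4 e5 e6 (by simp [val, z1, z2, z3]; simpa using hw'.symm)⟩

noncomputable def kap (r : ℝ) : ℤ := ⌊r⌋ + ⌈r⌉

lemma kap_eq (o s : ℤ) (w : ℝ)
    (h : (w = 0 ∧ s = 0) ∨ (0 < w ∧ w < 1 ∧ s = 1) ∨ (-1 < w ∧ w < 0 ∧ s = -1)) :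
    kap (o + w) = 2 * o + s := by
  unfold kap
  rcases h with ⟨a, b⟩ | ⟨a, b, c⟩ | ⟨a, b, c⟩
  · simp [a, b]; ring
  · have e1 : ⌊(o : ℝ) + w⌋ = o := by rw [Int.floor_eq_iff]; constructor <;> linarith
    have e2 : ⌈(o : ℝ) + w⌉ = o + 1 := by rw [Int.ceil_eq_iff]; push_cast; constructor <;> linarith
    rw [e1, e2, c]; ring
  · have e1 : ⌊(o : ℝ) + w⌋ = o - 1 := by rw [Int.floor_eq_iff]; push_cast; constructor <;> linarith
    have e2 : ⌈(o : ℝ) + w⌉ = o := by rw [Int.ceil_eq_iff]; constructor <;> linarith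
    rw [e1, e2, c]; ring

lemma kap_val {t : T3} (h : ty t) {u v : ℝ} {e1 e2 : ℤ}
    (hu : (u = 0 ∧ e1 = 0) ∨ (0 < u ∧ u < 1 ∧ e1 = 1))
    (hv : (v = 0 ∧ e2 = 0) ∨ (0 < v ∧ v < 1 ∧ e2 = 1)) : kap (val t u v) = code t e1 e2 := by
  unfold val code
  rw [add_assoc, add_assoc]
  apply kap_eq
  rcases h with ⟨a, b⟩ | ⟨a, b⟩ | ⟨a, b⟩ | ⟨a, b⟩ | ⟨a, b⟩ <;> rw [a, b] <;>
    rcases hu with ⟨u1, u2⟩ | ⟨u1, u2, u3⟩ <;> rcases hv with ⟨v1, v2⟩ | ⟨v1, v2, v3⟩ <;>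
    simp [*]

lemma carrier {L : List D} {p : P2} (hp : p ∈ interior (region (cellsOf L))) :
    ∃ d ∈ L, p ∈ cell (d.i, d.j) ∧ ∃ e1 ∈ [(0 : ℤ), 1], ∃ e2 ∈ [(0 : ℤ), 1], valid L d e1 e2 ∧
      ((p 0 - d.i = 0 ∧ e1 = 0) ∨ (0 < p 0 - d.i ∧ p 0 - d.i < 1 ∧ e1 = 1)) ∧
      ((p 1 - d.j = 0 ∧ e2 = 0) ∨ (0 < p 1 - d.j ∧ p 1 - d.j < 1 ∧ e2 = 1)) := by
  have a1 := Int.floor_le (p 0)
  have a2 := Int.lt_floor_add_one (p 0)
  have b1 := Int.floor_le (p 1)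
  have b2 := Int.lt_floor_add_one (p 1)
  have hc : p ∈ cell (⌊p 0⌋, ⌊p 1⌋) := ⟨a1, a2.le, b1, b2.le⟩
  obtain ⟨d, hd, e1, e2⟩ := mem_cellsOf.1 (mem_of_interior hp hc)
  simp only at e1 e2
  rw [← e1] at a1 a2
  rw [← e2] at b1 b2
  have K : ∀ i j : ℤ, (i : ℝ) ≤ p 0 → p 0 ≤ i + 1 → (j : ℝ) ≤ p 1 → p 1 ≤ j + 1 → has L i j :=
    fun i j k1 k2 k3 k4 => mem_cellsOf.1 (mem_of_interior hp (c := (i, j)) ⟨k1, k2, k3, k4⟩)
  refine ⟨d, hd, ⟨a1, a2.le, b1, b2.le⟩, if p 0 - d.i = 0 then 0 else 1, by split_ifs <;> simp,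
    if p 1 - d.j = 0 then 0 else 1, by split_ifs <;> simp, ⟨?_, ?_, ?_⟩, ?_, ?_⟩
  · intro h
    have : p 0 - d.i = 0 := by by_contra k; simp [k] at h
    exact K _ _ (by push_cast; linarith) (by push_cast; linarith) b1 b2.le
  · intro h
    have : p 1 - d.j = 0 := by by_contra k; simp [k] at h
    exact K _ _ a1 a2.le (by push_cast; linarith) (by push_cast; linarith)
  · intro h h'
    have : p 0 - d.i = 0 := by by_contra k; simp [k] at h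
    have : p 1 - d.j = 0 := by by_contra k; simp [k] at h'
    exact K _ _ (by push_cast; linarith) (by push_cast; linarith) (by push_cast; linarith)
      (by push_cast; linarith)
  · by_cases k : p 0 - d.i = 0
    · simp [k]
    · right; refine ⟨lt_of_le_of_ne (by linarith) (Ne.symm k), by linarith, by simp [k]⟩
  · by_cases k : p 1 - d.j = 0
    · simp [k]
    · right; refine ⟨lt_of_le_of_ne (by linarith) (Ne.symm k), by linarith, by simp [k]⟩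

def chk (l : ℕ) (L : List D) : Prop :=
  (∀ d ∈ L, frame l d) ∧ (∀ d ∈ L, ∀ d' ∈ L, agree d d') ∧ surj l L ∧ inj L

instance (l : ℕ) (L : List D) : Decidable (chk l L) := by unfold chk; infer_instance

lemma folds_of_chk {l : ℕ} (hl : 0 < l) {L : List D} (h : chk l L) :
    FoldsToCube (region (cellsOf L)) := by
  classical
  obtain ⟨hf, ha, hs, hi⟩ := h
  let f : P2 → P3 := fun p => if h : ∃ d ∈ L, p ∈ cell (d.i, d.j) then g h.choose p else 0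
  have hfg : ∀ d ∈ L, ∀ p ∈ cell (d.i, d.j), f p = g d p := by
    intro d hd p hp
    have h : ∃ d ∈ L, p ∈ cell (d.i, d.j) := ⟨d, hd, hp⟩
    simp only [f, dif_pos h]
    exact g_agree (ha _ h.choose_spec.1 d hd) h.choose_spec.2 hp
  have hmem : ∀ p, p ∈ region (cellsOf L) ↔ ∃ d ∈ L, p ∈ cell (d.i, d.j) := by
    intro p
    rw [mem_region]
    constructor
    · rintro ⟨c, hc, hp⟩
      obtain ⟨d, hd, e1, e2⟩ := mem_cellsOf.1 hc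
      exact ⟨d, hd, by rw [e1, e2]; exact hp⟩
    · rintro ⟨d, hd, hp⟩
      exact ⟨_, mem_cellsOf.2 ⟨d, hd, rfl, rfl⟩, hp⟩
  refine ⟨l, by exact_mod_cast hl, f, corners '' (cellsOf L : Set (ℤ × ℤ)),
    (Finset.finite_toSet _).image _, ?_, ?_, ?_, ?_, ?_⟩
  · rintro _ ⟨c, -, rfl⟩
    unfold corners
    exact Set.toFinite _
  · simp only [Set.biUnion_image, hull_corners]; rfl
  · rintro _ ⟨c, hc, rfl⟩ x hx y hy
    rw [hull_corners] at hx hy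
    obtain ⟨d, hd, e1, e2⟩ := mem_cellsOf.1 hc
    have : c = (d.i, d.j) := Prod.ext e1.symm e2.symm
    subst this
    rw [hfg d hd x hx, hfg d hd y hy, g_dist (hf d hd)]
  · ext q
    constructor
    · rintro ⟨p, hp, rfl⟩
      obtain ⟨d, hd, hp⟩ := (hmem p).1 hp
      rw [hfg d hd p hp]
      exact g_mem (hf d hd) hp
    · intro hq
      obtain ⟨d, hd, p, hp, e⟩ := g_surj hl hf hs hq
      exact ⟨p, (hmem p).2 ⟨d, hd, hp⟩, by rw [hfg d hd p hp, e]⟩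
  · intro p hp p' hp' e
    obtain ⟨d, hd, hc, e1, m1, e2, m2, hv, u1, u2⟩ := carrier hp
    obtain ⟨d', hd', hc', e1', m1', e2', m2', hv', u1', u2'⟩ := carrier hp'
    have e' := e
    rw [hfg d hd p hc, hfg d' hd' p' hc'] at e'
    obtain ⟨t1, t2, t3, -⟩ := hf d hd
    obtain ⟨t1', t2', t3', -⟩ := hf d' hd'
    have q0 : val d.x (p 0 - d.i) (p 1 - d.j) = val d'.x (p' 0 - d'.i) (p' 1 - d'.j) :=
      congrArg (fun q : P3 => q 0) e'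
    have q1 : val d.y (p 0 - d.i) (p 1 - d.j) = val d'.y (p' 0 - d'.i) (p' 1 - d'.j) :=
      congrArg (fun q : P3 => q 1) e'
    have q2 : val d.z (p 0 - d.i) (p 1 - d.j) = val d'.z (p' 0 - d'.i) (p' 1 - d'.j) :=
      congrArg (fun q : P3 => q 2) e'
    obtain ⟨k1, k2⟩ := hi d hd e1 m1 e2 m2 hv d' hd' e1' m1' e2' m2'
      (by rw [← kap_val t1 u1 u2, ← kap_val t1' u1' u2', q0])
      (by rw [← kap_val t2 u1 u2, ← kap_val t2' u1' u2', q1])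
      (by rw [← kap_val t3 u1 u2, ← kap_val t3' u1' u2', q2]) hv'
    rw [← k1, ← k2] at hc'
    rw [hfg d hd p hc, hfg d hd p' hc'] at e
    have := g_dist (hf d hd) p p'
    rw [e, dist_self] at this
    exact dist_eq_zero.1 this.symm

def conn : List D → Bool
  | [] => false
  | [_] => true
  | d :: e :: L => ((e :: L).any fun d' => decide (|d.i - d'.i| + |d.j - d'.j| = 1)) && conn (e :: L)

lemma poly_of_conn : ∀ L : List D, conn L = true → IsPolyomino (cellsOf L)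
  | [], h => by simp [conn] at h
  | [d], _ => by
    refine ⟨⟨(d.i, d.j), mem_cellsOf.2 ⟨d, by simp, rfl, rfl⟩⟩, ?_⟩
    intro a ha b hb
    simp [cellsOf] at ha hb
    rw [ha, hb]
  | d :: e :: L, h => by
    simp only [conn, Bool.and_eq_true, List.any_eq_true, decide_eq_true_eq] at h
    obtain ⟨⟨d', hd', hadj⟩, h2⟩ := h
    obtain ⟨-, ih⟩ := poly_of_conn (e :: L) h2
    have hm : ∀ c, c ∈ cellsOf (d :: e :: L) ↔ c = (d.i, d.j) ∨ c ∈ cellsOf (e :: L) := by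
      intro c; simp [cellsOf]
    set r := fun u v => u ∈ cellsOf (d :: e :: L) ∧ v ∈ cellsOf (d :: e :: L) ∧ Adj u v with hr
    have ih' : ∀ a ∈ cellsOf (e :: L), ∀ b ∈ cellsOf (e :: L), Relation.ReflTransGen r a b := by
      intro a ha b hb
      have k := ih a ha b hb
      clear hb
      induction k with
      | refl => exact .refl
      | tail _ k ih2 => exact ih2.tail ⟨(hm _).2 (.inr k.1), (hm _).2 (.inr k.2.1), k.2.2⟩
    have hd'' : (d'.i, d'.j) ∈ cellsOf (e :: L) := mem_cellsOf.2 ⟨d', hd', rfl, rfl⟩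
    have r1 : r (d.i, d.j) (d'.i, d'.j) := ⟨(hm _).2 (.inl rfl), (hm _).2 (.inr hd''), hadj⟩
    have r2 : r (d'.i, d'.j) (d.i, d.j) := ⟨(hm _).2 (.inr hd''), (hm _).2 (.inl rfl), by
      unfold Adj; simp only; rw [abs_sub_comm d'.i, abs_sub_comm d'.j]; exact hadj⟩
    refine ⟨⟨_, (hm _).2 (.inl rfl)⟩, ?_⟩
    intro a ha b hb
    rcases (hm a).1 ha with rfl | ha <;> rcases (hm b).1 hb with rfl | hb
    · exact .refl
    · exact Relation.ReflTransGen.head r1 (ih' _ hd'' _ hb)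
    · exact (ih' _ ha _ hd'').tail r2
    · exact ih' a ha b hb

lemma net_of {l : ℕ} (hl : 0 < l) {L : List D} (h : conn L = true ∧ chk l L) : IsNet (cellsOf L) :=
  ⟨poly_of_conn L h.1, folds_of_chk hl h.2⟩

end Pool.Agent.H.MP_ea7ca7_co
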