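import Pool.Agent.H.MP_ea7ca7_co.B

namespace Pool.Agent.H.MP_ea7ca7_co

def p0 : List D := [⟨19,13,(1,0,-1),(1,-1,0),(0,0,0)⟩,⟨19,15,(0,0,1),(1,-1,0),(1,0,0)⟩,⟨19,14,(0,0,0),(1,-1,0),(0,0,1)⟩,⟨18,14,(1,-1,0),(1,0,0),(0,0,1)⟩,⟨17,14,(1,0,0),(0,1,0),(0,0,1)⟩,⟨16,14,(0,1,0),(0,0,0),(0,0,1)⟩]
def p1 : List D := [⟨7,9,(0,0,0),(0,0,1),(0,1,0)⟩,⟨6,9,(1,-1,0),(0,0,1),(0,0,0)⟩,⟨4,10,(0,1,0),(1,0,0),(1,0,-1)⟩,⟨5,9,(1,0,0),(0,0,1),(1,-1,0)⟩,⟨4,9,(0,1,0),(0,0,1),(1,0,0)⟩,⟨4,8,(0,1,0),(0,0,0),(0,0,1)⟩]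
def p2 : List D := [⟨9,16,(1,0,-1),(0,1,0),(1,0,0)⟩,⟨9,17,(0,0,0),(0,1,0),(1,0,-1)⟩,⟨9,18,(0,0,1),(0,1,0),(0,0,0)⟩,⟨10,19,(1,-1,0),(1,0,0),(0,0,1)⟩,⟨9,19,(1,0,0),(0,1,0),(0,0,1)⟩,⟨8,19,(0,1,0),(0,0,0),(0,0,1)⟩]
def p3 : List D := [⟨14,7,(0,0,1),(0,1,0),(0,0,0)⟩,⟨14,6,(0,0,0),(0,1,0),(1,0,-1)⟩,⟨14,5,(1,0,-1),(0,1,0),(1,0,0)⟩,⟨15,4,(1,-1,0),(1,0,0),(0,0,1)⟩,⟨14,4,(1,0,0),(0,1,0),(0,0,1)⟩,⟨13,4,(0,1,0),(0,0,0),(0,0,1)⟩]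
def p4 : List D := [⟨4,5,(0,0,1),(1,0,0),(0,1,0)⟩,⟨3,8,(0,0,0),(0,1,0),(1,0,-1)⟩,⟨3,5,(0,0,1),(0,1,0),(0,0,0)⟩,⟨3,7,(1,0,-1),(0,1,0),(1,0,0)⟩,⟨3,6,(1,0,0),(0,1,0),(0,0,1)⟩,⟨2,6,(0,1,0),(0,0,0),(0,0,1)⟩]
def p5 : List D := [⟨18,4,(0,0,1),(1,-1,0),(1,0,0)⟩,⟨17,2,(1,-1,0),(0,0,1),(0,0,0)⟩,⟨18,3,(0,0,0),(1,-1,0),(0,0,1)⟩,⟨17,3,(1,-1,0),(1,0,0),(0,0,1)⟩,⟨16,3,(1,0,0),(0,1,0),(0,0,1)⟩,⟨15,3,(0,1,0),(0,0,0),(0,0,1)⟩]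
def p6 : List D := [⟨20,15,(1,0,-1),(0,1,0),(1,0,0)⟩,⟨20,16,(0,0,0),(0,1,0),(1,0,-1)⟩,⟨21,17,(0,0,1),(1,0,0),(0,1,0)⟩,⟨20,17,(0,0,1),(0,1,0),(0,0,0)⟩,⟨20,18,(1,0,0),(0,1,0),(0,0,1)⟩,⟨19,18,(0,1,0),(0,0,0),(0,0,1)⟩]
def p7 : List D := [⟨8,20,(0,0,0),(0,0,1),(0,1,0)⟩,⟨6,21,(1,0,-1),(1,0,0),(1,-1,0)⟩,⟨7,20,(1,-1,0),(0,0,1),(0,0,0)⟩,⟨6,20,(1,0,0),(0,0,1),(1,-1,0)⟩,⟨5,20,(0,1,0),(0,0,1),(1,0,0)⟩,⟨5,19,(0,1,0),(0,0,0),(0,0,1)⟩]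
def p8 : List D := [⟨4,15,(0,0,0),(1,-1,0),(0,0,1)⟩,⟨2,14,(0,0,1),(0,1,0),(0,0,0)⟩,⟨3,15,(1,-1,0),(1,0,0),(0,0,1)⟩,⟨1,16,(0,1,0),(0,0,1),(1,0,0)⟩,⟨2,15,(1,0,0),(0,1,0),(0,0,1)⟩,⟨1,15,(0,1,0),(0,0,0),(0,0,1)⟩]
def p9 : List D := [⟨22,7,(1,0,-1),(1,-1,0),(0,0,0)⟩,⟨21,9,(1,-1,0),(1,0,-1),(1,0,0)⟩,⟨22,8,(0,0,0),(1,-1,0),(0,0,1)⟩,⟨21,8,(1,-1,0),(1,0,0),(0,0,1)⟩,⟨20,8,(1,0,0),(0,1,0),(0,0,1)⟩,⟨19,8,(0,1,0),(0,0,0),(0,0,1)⟩]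
def p10 : List D := [⟨15,19,(0,0,0),(0,1,0),(1,0,-1)⟩,⟨16,22,(1,0,-1),(1,0,0),(1,-1,0)⟩,⟨15,20,(0,0,1),(0,1,0),(0,0,0)⟩,⟨15,22,(1,0,-1),(0,1,0),(1,0,0)⟩,⟨15,21,(1,0,0),(0,1,0),(0,0,1)⟩,⟨14,21,(0,1,0),(0,0,0),(0,0,1)⟩]
def p11 : List D := [⟨8,4,(0,0,1),(0,1,0),(0,0,0)⟩,⟨8,3,(0,0,0),(0,1,0),(1,0,-1)⟩,⟨9,2,(1,0,-1),(1,0,0),(1,-1,0)⟩,⟨8,2,(1,0,-1),(0,1,0),(1,0,0)⟩,⟨8,1,(1,0,0),(0,1,0),(0,0,1)⟩,⟨7,1,(0,1,0),(0,0,0),(0,0,1)⟩]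
def p12 : List D := [⟨14,13,(0,0,0),(1,-1,0),(0,0,1)⟩,⟨12,12,(0,0,1),(0,1,0),(0,0,0)⟩,⟨13,13,(1,-1,0),(1,0,0),(0,0,1)⟩,⟨11,14,(0,1,0),(0,0,1),(1,0,0)⟩,⟨12,13,(1,0,0),(0,1,0),(0,0,1)⟩,⟨11,13,(0,1,0),(0,0,0),(0,0,1)⟩]
def p13 : List D := [⟨13,9,(0,0,0),(0,1,0),(1,0,-1)⟩,⟨14,12,(1,0,-1),(1,0,0),(1,-1,0)⟩,⟨13,10,(0,0,1),(0,1,0),(0,0,0)⟩,⟨13,12,(1,0,-1),(0,1,0),(1,0,0)⟩,⟨13,11,(1,0,0),(0,1,0),(0,0,1)⟩,⟨12,11,(0,1,0),(0,0,0),(0,0,1)⟩]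
def p14 : List D := [⟨10,14,(0,0,1),(0,1,0),(0,0,0)⟩,⟨10,13,(0,0,0),(0,1,0),(1,0,-1)⟩,⟨11,12,(1,0,-1),(1,0,0),(1,-1,0)⟩,⟨10,12,(1,0,-1),(0,1,0),(1,0,0)⟩,⟨10,11,(1,0,0),(0,1,0),(0,0,1)⟩,⟨9,11,(0,1,0),(0,0,0),(0,0,1)⟩]
def p15 : List D := [⟨12,9,(1,0,-1),(1,-1,0),(0,0,0)⟩,⟨11,11,(1,-1,0),(1,0,-1),(1,0,0)⟩,⟨12,10,(0,0,0),(1,-1,0),(0,0,1)⟩,⟨11,10,(1,-1,0),(1,0,0),(0,0,1)⟩,⟨10,10,(1,0,0),(0,1,0),(0,0,1)⟩,⟨9,10,(0,1,0),(0,0,0),(0,0,1)⟩]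
def p16 : List D := [⟨14,15,(0,0,0),(1,-1,0),(0,0,1)⟩,⟨12,14,(0,0,1),(0,1,0),(0,0,0)⟩,⟨13,15,(1,-1,0),(1,0,0),(0,0,1)⟩,⟨11,16,(0,1,0),(0,0,1),(1,0,0)⟩,⟨12,15,(1,0,0),(0,1,0),(0,0,1)⟩,⟨11,15,(0,1,0),(0,0,0),(0,0,1)⟩]
def p17 : List D := [⟨12,7,(1,0,-1),(1,-1,0),(0,0,0)⟩,⟨11,9,(1,-1,0),(1,0,-1),(1,0,0)⟩,⟨12,8,(0,0,0),(1,-1,0),(0,0,1)⟩,⟨11,8,(1,-1,0),(1,0,0),(0,0,1)⟩,⟨10,8,(1,0,0),(0,1,0),(0,0,1)⟩,⟨9,8,(0,1,0),(0,0,0),(0,0,1)⟩]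
def p18 : List D := [⟨8,14,(0,0,1),(0,1,0),(0,0,0)⟩,⟨8,13,(0,0,0),(0,1,0),(1,0,-1)⟩,⟨9,12,(1,0,-1),(1,0,0),(1,-1,0)⟩,⟨8,12,(1,0,-1),(0,1,0),(1,0,0)⟩,⟨8,11,(1,0,0),(0,1,0),(0,0,1)⟩,⟨7,11,(0,1,0),(0,0,0),(0,0,1)⟩]
def p19 : List D := [⟨15,9,(0,0,0),(0,1,0),(1,0,-1)⟩,⟨16,12,(1,0,-1),(1,0,0),(1,-1,0)⟩,⟨15,10,(0,0,1),(0,1,0),(0,0,0)⟩,⟨15,12,(1,0,-1),(0,1,0),(1,0,0)⟩,⟨15,11,(1,0,0),(0,1,0),(0,0,1)⟩,⟨14,11,(0,1,0),(0,0,0),(0,0,1)⟩]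
def p20 : List D := [⟨12,18,(1,-1,0),(1,0,0),(0,0,1)⟩,⟨13,17,(0,0,0),(0,0,1),(0,1,0)⟩,⟨12,17,(1,-1,0),(0,0,1),(0,0,0)⟩,⟨11,17,(1,0,0),(0,0,1),(1,-1,0)⟩,⟨10,17,(0,1,0),(0,0,1),(1,0,0)⟩,⟨10,16,(0,1,0),(0,0,0),(0,0,1)⟩]
def p21 : List D := [⟨7,10,(0,1,0),(1,0,0),(1,0,-1)⟩,⟨6,10,(0,0,0),(0,1,0),(1,0,-1)⟩,⟨6,11,(0,0,1),(0,1,0),(0,0,0)⟩,⟨6,13,(1,0,-1),(0,1,0),(1,0,0)⟩,⟨6,12,(1,0,0),(0,1,0),(0,0,1)⟩,⟨5,12,(0,1,0),(0,0,0),(0,0,1)⟩]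
def p22 : List D := [⟨13,7,(0,0,1),(1,-1,0),(1,0,0)⟩,⟨13,6,(0,0,0),(1,-1,0),(0,0,1)⟩,⟨11,5,(0,0,1),(0,1,0),(0,0,0)⟩,⟨12,6,(1,-1,0),(1,0,0),(0,0,1)⟩,⟨11,6,(1,0,0),(0,1,0),(0,0,1)⟩,⟨10,6,(0,1,0),(0,0,0),(0,0,1)⟩]
def p23 : List D := [⟨17,10,(1,0,-1),(0,1,0),(1,0,0)⟩,⟨18,11,(0,1,0),(1,0,0),(1,0,-1)⟩,⟨17,11,(0,0,0),(0,1,0),(1,0,-1)⟩,⟨17,12,(0,0,1),(0,1,0),(0,0,0)⟩,⟨17,13,(1,0,0),(0,1,0),(0,0,1)⟩,⟨16,13,(0,1,0),(0,0,0),(0,0,1)⟩]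
def p24 : List D := [⟨1,4,(1,0,-1),(0,1,0),(1,0,0)⟩,⟨2,5,(0,1,0),(1,0,0),(1,0,-1)⟩,⟨1,5,(0,0,0),(0,1,0),(1,0,-1)⟩,⟨1,6,(0,0,1),(0,1,0),(0,0,0)⟩,⟨1,7,(1,0,0),(0,1,0),(0,0,1)⟩,⟨0,7,(0,1,0),(0,0,0),(0,0,1)⟩]
def p25 : List D := [⟨23,16,(0,1,0),(1,0,0),(1,0,-1)⟩,⟨22,16,(0,0,0),(0,1,0),(1,0,-1)⟩,⟨22,17,(0,0,1),(0,1,0),(0,0,0)⟩,⟨22,19,(1,0,-1),(0,1,0),(1,0,0)⟩,⟨22,18,(1,0,0),(0,1,0),(0,0,1)⟩,⟨21,18,(0,1,0),(0,0,0),(0,0,1)⟩]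
def p26 : List D := [⟨18,2,(1,-1,0),(1,0,0),(0,0,1)⟩,⟨19,1,(0,0,0),(0,0,1),(0,1,0)⟩,⟨18,1,(1,-1,0),(0,0,1),(0,0,0)⟩,⟨17,1,(1,0,0),(0,0,1),(1,-1,0)⟩,⟨16,1,(0,1,0),(0,0,1),(1,0,0)⟩,⟨16,0,(0,1,0),(0,0,0),(0,0,1)⟩]
def p27 : List D := [⟨7,23,(0,0,1),(1,-1,0),(1,0,0)⟩,⟨7,22,(0,0,0),(1,-1,0),(0,0,1)⟩,⟨5,21,(0,0,1),(0,1,0),(0,0,0)⟩,⟨6,22,(1,-1,0),(1,0,0),(0,0,1)⟩,⟨5,22,(1,0,0),(0,1,0),(0,0,1)⟩,⟨4,22,(0,1,0),(0,0,0),(0,0,1)⟩]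
def p28 : List D := [⟨10,9,(1,0,-1),(1,-1,0),(0,0,0)⟩,⟨8,10,(0,0,0),(0,1,0),(1,0,-1)⟩,⟨9,9,(1,0,-1),(1,0,0),(1,-1,0)⟩,⟨8,9,(1,0,-1),(0,1,0),(1,0,0)⟩,⟨8,8,(1,0,0),(0,1,0),(0,0,1)⟩,⟨7,8,(0,1,0),(0,0,0),(0,0,1)⟩]
def p29 : List D := [⟨9,13,(0,0,0),(0,1,0),(1,0,-1)⟩,⟨9,14,(0,0,1),(0,1,0),(0,0,0)⟩,⟨10,15,(1,-1,0),(1,0,0),(0,0,1)⟩,⟨8,16,(0,1,0),(0,0,1),(1,0,0)⟩,⟨9,15,(1,0,0),(0,1,0),(0,0,1)⟩,⟨8,15,(0,1,0),(0,0,0),(0,0,1)⟩]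
def p30 : List D := [⟨16,15,(0,0,0),(1,0,-1),(1,-1,0)⟩,⟨15,13,(1,-1,0),(0,0,1),(0,0,0)⟩,⟨15,15,(1,-1,0),(1,0,-1),(1,0,0)⟩,⟨15,14,(1,-1,0),(1,0,0),(0,0,1)⟩,⟨14,14,(1,0,0),(0,1,0),(0,0,1)⟩,⟨13,14,(0,1,0),(0,0,0),(0,0,1)⟩]
def p31 : List D := [⟨14,10,(0,0,0),(0,1,0),(1,0,-1)⟩,⟨15,7,(1,-1,0),(0,0,1),(0,0,0)⟩,⟨14,9,(1,0,-1),(0,1,0),(1,0,0)⟩,⟨15,8,(1,-1,0),(1,0,0),(0,0,1)⟩,⟨14,8,(1,0,0),(0,1,0),(0,0,1)⟩,⟨13,8,(0,1,0),(0,0,0),(0,0,1)⟩]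
def p32 : List D := [⟨8,7,(0,0,1),(1,-1,0),(1,0,0)⟩,⟨6,6,(0,0,0),(0,1,0),(1,0,-1)⟩,⟨7,7,(0,0,1),(1,0,0),(0,1,0)⟩,⟨6,7,(0,0,1),(0,1,0),(0,0,0)⟩,⟨6,8,(1,0,0),(0,1,0),(0,0,1)⟩,⟨5,8,(0,1,0),(0,0,0),(0,0,1)⟩]
def p33 : List D := [⟨18,15,(0,0,0),(0,0,1),(0,1,0)⟩,⟨17,15,(1,-1,0),(0,0,1),(0,0,0)⟩,⟨17,17,(1,-1,0),(1,0,-1),(1,0,0)⟩,⟨17,16,(1,-1,0),(1,0,0),(0,0,1)⟩,⟨16,16,(1,0,0),(0,1,0),(0,0,1)⟩,⟨15,16,(0,1,0),(0,0,0),(0,0,1)⟩]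
def p34 : List D := [⟨16,8,(0,0,0),(1,0,-1),(1,-1,0)⟩,⟨16,7,(1,0,-1),(1,0,0),(1,-1,0)⟩,⟨17,6,(1,-1,0),(0,0,1),(0,0,0)⟩,⟨16,6,(1,0,0),(0,0,1),(1,-1,0)⟩,⟨15,6,(0,1,0),(0,0,1),(1,0,0)⟩,⟨15,5,(0,1,0),(0,0,0),(0,0,1)⟩]
def p35 : List D := [⟨7,15,(0,0,0),(0,1,0),(1,0,-1)⟩,⟨8,18,(1,-1,0),(1,0,-1),(1,0,0)⟩,⟨7,16,(0,0,1),(0,1,0),(0,0,0)⟩,⟨8,17,(1,-1,0),(1,0,0),(0,0,1)⟩,⟨7,17,(1,0,0),(0,1,0),(0,0,1)⟩,⟨6,17,(0,1,0),(0,0,0),(0,0,1)⟩]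
def p36 : List D := [⟨5,10,(0,0,0),(0,0,1),(0,1,0)⟩,⟨5,11,(0,0,1),(1,0,0),(0,1,0)⟩,⟨4,11,(0,0,1),(0,1,0),(0,0,0)⟩,⟨4,13,(1,0,-1),(0,1,0),(1,0,0)⟩,⟨4,12,(1,0,0),(0,1,0),(0,0,1)⟩,⟨3,12,(0,1,0),(0,0,0),(0,0,1)⟩]
def p37 : List D := [⟨12,20,(0,0,0),(1,0,-1),(1,-1,0)⟩,⟨13,19,(1,0,-1),(1,-1,0),(0,0,0)⟩,⟨12,19,(1,0,-1),(1,0,0),(1,-1,0)⟩,⟨11,19,(1,0,-1),(0,1,0),(1,0,0)⟩,⟨11,18,(1,0,0),(0,1,0),(0,0,1)⟩,⟨10,18,(0,1,0),(0,0,0),(0,0,1)⟩]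
def p38 : List D := [⟨19,10,(0,0,0),(0,1,0),(1,0,-1)⟩,⟨20,11,(0,0,1),(1,0,0),(0,1,0)⟩,⟨19,11,(0,0,1),(0,1,0),(0,0,0)⟩,⟨18,13,(0,1,0),(0,0,1),(1,0,0)⟩,⟨19,12,(1,0,0),(0,1,0),(0,0,1)⟩,⟨18,12,(0,1,0),(0,0,0),(0,0,1)⟩]
def p39 : List D := [⟨13,5,(0,0,0),(1,0,-1),(1,-1,0)⟩,⟨12,5,(1,-1,0),(1,0,-1),(1,0,0)⟩,⟨11,3,(0,0,1),(0,1,0),(0,0,0)⟩,⟨12,4,(1,-1,0),(1,0,0),(0,0,1)⟩,⟨11,4,(1,0,0),(0,1,0),(0,0,1)⟩,⟨10,4,(0,1,0),(0,0,0),(0,0,1)⟩]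
def p40 : List D := [⟨1,11,(0,0,0),(1,0,-1),(1,-1,0)⟩,⟨2,10,(1,0,-1),(1,-1,0),(0,0,0)⟩,⟨1,10,(1,0,-1),(1,0,0),(1,-1,0)⟩,⟨1,9,(1,0,0),(0,0,1),(1,-1,0)⟩,⟨0,9,(0,1,0),(0,0,1),(1,0,0)⟩,⟨0,8,(0,1,0),(0,0,0),(0,0,1)⟩]
def p41 : List D := [⟨10,21,(0,0,0),(0,0,1),(0,1,0)⟩,⟨11,22,(0,0,1),(1,-1,0),(1,0,0)⟩,⟨10,22,(0,0,1),(1,0,0),(0,1,0)⟩,⟨9,22,(0,0,1),(0,1,0),(0,0,0)⟩,⟨9,23,(1,0,0),(0,1,0),(0,0,1)⟩,⟨8,23,(0,1,0),(0,0,0),(0,0,1)⟩]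
def p42 : List D := [⟨15,0,(0,0,0),(0,0,1),(0,1,0)⟩,⟨14,0,(1,-1,0),(0,0,1),(0,0,0)⟩,⟨13,2,(1,0,-1),(0,1,0),(1,0,0)⟩,⟨14,1,(1,-1,0),(1,0,0),(0,0,1)⟩,⟨13,1,(1,0,0),(0,1,0),(0,0,1)⟩,⟨12,1,(0,1,0),(0,0,0),(0,0,1)⟩]
def p43 : List D := [⟨23,15,(0,0,0),(1,0,-1),(1,-1,0)⟩,⟨23,14,(1,0,-1),(1,0,0),(1,-1,0)⟩,⟨22,12,(0,0,1),(0,1,0),(0,0,0)⟩,⟨22,14,(1,0,-1),(0,1,0),(1,0,0)⟩,⟨22,13,(1,0,0),(0,1,0),(0,0,1)⟩,⟨21,13,(0,1,0),(0,0,0),(0,0,1)⟩]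
def p44 : List D := [⟨15,1,(0,0,0),(0,0,1),(0,1,0)⟩,⟨16,2,(0,0,1),(1,-1,0),(1,0,0)⟩,⟨15,2,(0,0,1),(1,0,0),(0,1,0)⟩,⟨14,2,(0,0,1),(0,1,0),(0,0,0)⟩,⟨14,3,(1,0,0),(0,1,0),(0,0,1)⟩,⟨13,3,(0,1,0),(0,0,0),(0,0,1)⟩]
def p45 : List D := [⟨3,10,(0,0,0),(1,0,-1),(1,-1,0)⟩,⟨3,9,(1,0,-1),(1,0,0),(1,-1,0)⟩,⟨2,7,(0,0,1),(0,1,0),(0,0,0)⟩,⟨2,9,(1,0,-1),(0,1,0),(1,0,0)⟩,⟨2,8,(1,0,0),(0,1,0),(0,0,1)⟩,⟨1,8,(0,1,0),(0,0,0),(0,0,1)⟩]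
def p46 : List D := [⟨10,20,(0,0,0),(0,0,1),(0,1,0)⟩,⟨9,20,(1,-1,0),(0,0,1),(0,0,0)⟩,⟨8,22,(1,0,-1),(0,1,0),(1,0,0)⟩,⟨9,21,(1,-1,0),(1,0,0),(0,0,1)⟩,⟨8,21,(1,0,0),(0,1,0),(0,0,1)⟩,⟨7,21,(0,1,0),(0,0,0),(0,0,1)⟩]
def p47 : List D := [⟨21,16,(0,0,0),(1,0,-1),(1,-1,0)⟩,⟨22,15,(1,0,-1),(1,-1,0),(0,0,0)⟩,⟨21,15,(1,0,-1),(1,0,0),(1,-1,0)⟩,⟨21,14,(1,0,0),(0,0,1),(1,-1,0)⟩,⟨20,14,(0,1,0),(0,0,1),(1,0,0)⟩,⟨20,13,(0,1,0),(0,0,0),(0,0,1)⟩]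
def p48 : List D := [⟨3,19,(0,0,0),(0,0,1),(0,1,0)⟩,⟨2,19,(1,-1,0),(0,0,1),(0,0,0)⟩,⟨1,21,(1,0,-1),(0,1,0),(1,0,0)⟩,⟨2,20,(1,-1,0),(1,0,0),(0,0,1)⟩,⟨1,20,(1,0,0),(0,1,0),(0,0,1)⟩,⟨0,20,(0,1,0),(0,0,0),(0,0,1)⟩]
def p49 : List D := [⟨20,23,(0,0,0),(1,0,-1),(1,-1,0)⟩,⟨21,22,(1,0,-1),(1,-1,0),(0,0,0)⟩,⟨20,22,(1,0,-1),(1,0,0),(1,-1,0)⟩,⟨20,21,(1,0,0),(0,0,1),(1,-1,0)⟩,⟨19,21,(0,1,0),(0,0,1),(1,0,0)⟩,⟨19,20,(0,1,0),(0,0,0),(0,0,1)⟩]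
def p50 : List D := [⟨22,2,(0,0,0),(0,0,1),(0,1,0)⟩,⟨23,3,(0,0,1),(1,-1,0),(1,0,0)⟩,⟨22,3,(0,0,1),(1,0,0),(0,1,0)⟩,⟨21,3,(0,0,1),(0,1,0),(0,0,0)⟩,⟨21,4,(1,0,0),(0,1,0),(0,0,1)⟩,⟨20,4,(0,1,0),(0,0,0),(0,0,1)⟩]
def p51 : List D := [⟨4,3,(0,0,0),(1,0,-1),(1,-1,0)⟩,⟨4,2,(1,0,-1),(1,0,0),(1,-1,0)⟩,⟨3,0,(0,0,1),(0,1,0),(0,0,0)⟩,⟨3,2,(1,0,-1),(0,1,0),(1,0,0)⟩,⟨3,1,(1,0,0),(0,1,0),(0,0,1)⟩,⟨2,1,(0,1,0),(0,0,0),(0,0,1)⟩]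
def p52 : List D := [⟨6,3,(0,1,0),(1,0,-1),(0,0,0)⟩,⟨5,3,(0,0,0),(1,0,-1),(1,-1,0)⟩,⟨5,2,(1,0,-1),(1,0,0),(1,-1,0)⟩,⟨5,1,(1,0,0),(0,0,1),(1,-1,0)⟩,⟨4,1,(0,1,0),(0,0,1),(1,0,0)⟩,⟨4,0,(0,1,0),(0,0,0),(0,0,1)⟩]
def p53 : List D := [⟨19,23,(0,1,0),(1,0,-1),(0,0,0)⟩,⟨19,22,(0,1,0),(1,0,0),(1,0,-1)⟩,⟨18,22,(0,0,0),(0,1,0),(1,0,-1)⟩,⟨18,21,(1,0,-1),(0,1,0),(1,0,0)⟩,⟨18,20,(1,0,0),(0,1,0),(0,0,1)⟩,⟨17,20,(0,1,0),(0,0,0),(0,0,1)⟩]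
def p54 : List D := [⟨23,4,(0,0,0),(0,0,1),(0,1,0)⟩,⟨22,4,(1,-1,0),(0,0,1),(0,0,0)⟩,⟨22,5,(1,-1,0),(1,0,0),(0,0,1)⟩,⟨20,6,(0,1,0),(0,0,1),(1,0,0)⟩,⟨21,5,(1,0,0),(0,1,0),(0,0,1)⟩,⟨20,5,(0,1,0),(0,0,0),(0,0,1)⟩]
def p55 : List D := [⟨3,17,(0,0,0),(1,-1,0),(0,0,1)⟩,⟨3,18,(0,0,1),(1,-1,0),(1,0,0)⟩,⟨2,18,(0,0,1),(1,0,0),(0,1,0)⟩,⟨1,18,(0,0,1),(0,1,0),(0,0,0)⟩,⟨1,19,(1,0,0),(0,1,0),(0,0,1)⟩,⟨0,19,(0,1,0),(0,0,0),(0,0,1)⟩]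
def p56 : List D := [⟨3,16,(0,0,0),(0,0,1),(0,1,0)⟩,⟨2,16,(1,-1,0),(0,0,1),(0,0,0)⟩,⟨2,17,(1,-1,0),(1,0,0),(0,0,1)⟩,⟨0,18,(0,1,0),(0,0,1),(1,0,0)⟩,⟨1,17,(1,0,0),(0,1,0),(0,0,1)⟩,⟨0,17,(0,1,0),(0,0,0),(0,0,1)⟩]
def p57 : List D := [⟨18,23,(0,1,0),(1,0,-1),(0,0,0)⟩,⟨17,23,(0,0,0),(1,0,-1),(1,-1,0)⟩,⟨17,22,(1,0,-1),(1,0,0),(1,-1,0)⟩,⟨17,21,(1,0,0),(0,0,1),(1,-1,0)⟩,⟨16,21,(0,1,0),(0,0,1),(1,0,0)⟩,⟨16,20,(0,1,0),(0,0,0),(0,0,1)⟩]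
def p58 : List D := [⟨7,3,(0,1,0),(1,0,-1),(0,0,0)⟩,⟨7,2,(0,1,0),(1,0,0),(1,0,-1)⟩,⟨6,2,(0,0,0),(0,1,0),(1,0,-1)⟩,⟨6,1,(1,0,-1),(0,1,0),(1,0,0)⟩,⟨6,0,(1,0,0),(0,1,0),(0,0,1)⟩,⟨5,0,(0,1,0),(0,0,0),(0,0,1)⟩]
def p59 : List D := [⟨23,5,(0,0,0),(1,-1,0),(0,0,1)⟩,⟨23,6,(0,0,1),(1,-1,0),(1,0,0)⟩,⟨22,6,(0,0,1),(1,0,0),(0,1,0)⟩,⟨21,6,(0,0,1),(0,1,0),(0,0,0)⟩,⟨21,7,(1,0,0),(0,1,0),(0,0,1)⟩,⟨20,7,(0,1,0),(0,0,0),(0,0,1)⟩]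
def p60 : List D := [⟨7,12,(0,0,0),(0,1,0),(1,0,-1)⟩,⟨6,16,(0,1,0),(1,0,0),(1,0,-1)⟩,⟨7,13,(0,0,1),(0,1,0),(0,0,0)⟩,⟨6,15,(0,1,0),(0,0,1),(1,0,0)⟩,⟨7,14,(1,0,0),(0,1,0),(0,0,1)⟩,⟨6,14,(0,1,0),(0,0,0),(0,0,1)⟩]
def p61 : List D := [⟨11,7,(0,1,0),(1,0,-1),(0,0,0)⟩,⟨10,7,(0,0,0),(1,0,-1),(1,-1,0)⟩,⟨9,7,(1,-1,0),(1,0,-1),(1,0,0)⟩,⟨9,6,(1,-1,0),(1,0,0),(0,0,1)⟩,⟨8,6,(1,0,0),(0,1,0),(0,0,1)⟩,⟨7,6,(0,1,0),(0,0,0),(0,0,1)⟩]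
def p62 : List D := [⟨17,7,(0,0,0),(0,1,0),(1,0,-1)⟩,⟨16,11,(0,1,0),(1,0,0),(1,0,-1)⟩,⟨17,8,(0,0,1),(0,1,0),(0,0,0)⟩,⟨16,10,(0,1,0),(0,0,1),(1,0,0)⟩,⟨17,9,(1,0,0),(0,1,0),(0,0,1)⟩,⟨16,9,(0,1,0),(0,0,0),(0,0,1)⟩]
def p63 : List D := [⟨16,17,(0,1,0),(1,0,-1),(0,0,0)⟩,⟨15,17,(0,0,0),(1,0,-1),(1,-1,0)⟩,⟨14,17,(1,-1,0),(1,0,-1),(1,0,0)⟩,⟨14,16,(1,-1,0),(1,0,0),(0,0,1)⟩,⟨13,16,(1,0,0),(0,1,0),(0,0,1)⟩,⟨12,16,(0,1,0),(0,0,0),(0,0,1)⟩]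
def p64 : List D := [⟨23,7,(1,0,1),(1,-1,0),(2,0,0)⟩,⟨23,13,(0,0,0),(1,-1,0),(1,0,1)⟩,⟨23,8,(2,0,0),(1,-1,0),(2,0,-1)⟩,⟨23,12,(0,0,0),(1,-1,0),(0,0,1)⟩,⟨20,12,(0,0,0),(2,0,-1),(2,-1,0)⟩,⟨23,9,(2,0,0),(1,-1,0),(1,0,-1)⟩,⟨23,11,(1,0,-1),(1,-1,0),(0,0,0)⟩,⟨21,12,(0,0,0),(2,0,-1),(1,-1,0)⟩,⟨22,9,(2,0,0),(2,-1,0),(1,0,-1)⟩,⟨22,11,(1,0,-1),(2,-1,0),(0,0,0)⟩,⟨23,10,(2,0,-1),(1,-1,0),(0,0,0)⟩,⟨21,11,(1,0,-1),(2,0,0),(1,-1,0)⟩,⟨22,10,(2,0,-1),(2,-1,0),(0,0,0)⟩,⟨21,10,(2,0,-1),(2,0,0),(1,-1,0)⟩,⟨20,10,(2,0,-1),(2,0,0),(2,-1,0)⟩,⟨20,9,(2,0,0),(1,0,1),(2,-1,0)⟩,⟨18,10,(0,1,0),(2,0,0),(2,0,-1)⟩,⟨19,9,(1,1,0),(1,0,1),(2,0,0)⟩,⟨18,9,(0,1,0),(1,0,1),(2,0,0)⟩,⟨18,8,(0,1,0),(0,0,1),(2,0,0)⟩,⟨19,7,(1,1,0),(0,0,0),(1,0,1)⟩,⟨18,7,(0,1,0),(0,0,0),(1,0,1)⟩,⟨19,6,(1,1,0),(0,0,0),(0,0,1)⟩,⟨18,6,(0,1,0),(0,0,0),(0,0,1)⟩]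
def p65 : List D := [⟨4,17,(0,0,0),(2,-1,0),(1,0,1)⟩,⟨5,17,(0,0,0),(1,-1,0),(1,0,1)⟩,⟨4,16,(0,0,0),(2,-1,0),(0,0,1)⟩,⟨5,16,(0,0,0),(1,-1,0),(0,0,1)⟩,⟨5,13,(2,0,0),(1,-1,0),(1,0,-1)⟩,⟨5,15,(1,0,-1),(1,-1,0),(0,0,0)⟩,⟨5,14,(2,0,-1),(1,-1,0),(0,0,0)⟩,⟨4,14,(2,0,-1),(2,-1,0),(0,0,0)⟩,⟨3,14,(2,0,-1),(2,0,0),(1,-1,0)⟩,⟨0,16,(0,1,0),(2,0,-1),(0,0,0)⟩,⟨3,11,(1,0,1),(0,0,0),(1,-1,0)⟩,⟨3,13,(2,0,0),(1,0,1),(1,-1,0)⟩,⟨0,15,(0,1,0),(2,0,0),(1,0,-1)⟩,⟨1,14,(1,1,0),(2,0,0),(2,0,-1)⟩,⟨2,11,(1,0,1),(0,0,0),(2,-1,0)⟩,⟨2,13,(2,0,0),(1,0,1),(2,-1,0)⟩,⟨0,14,(0,1,0),(2,0,0),(2,0,-1)⟩,⟨1,13,(1,1,0),(1,0,1),(2,0,0)⟩,⟨2,12,(2,0,0),(0,0,1),(2,-1,0)⟩,⟨0,13,(0,1,0),(1,0,1),(2,0,0)⟩,⟨1,12,(1,1,0),(0,0,1),(2,0,0)⟩,⟨0,12,(0,1,0),(0,0,1),(2,0,0)⟩,⟨0,11,(0,1,0),(0,0,0),(1,0,1)⟩,⟨0,10,(0,1,0),(0,0,0),(0,0,1)⟩]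
def p66 : List D := [⟨17,19,(1,1,0),(1,0,1),(2,0,0)⟩,⟨16,19,(0,1,0),(1,0,1),(2,0,0)⟩,⟨17,18,(1,1,0),(0,0,1),(2,0,0)⟩,⟨16,18,(0,1,0),(0,0,1),(2,0,0)⟩,⟨13,18,(1,-1,0),(0,0,1),(0,0,0)⟩,⟨15,18,(0,0,0),(0,0,1),(1,1,0)⟩,⟨14,18,(0,0,0),(0,0,1),(0,1,0)⟩,⟨14,19,(0,0,0),(1,0,1),(0,1,0)⟩,⟨14,20,(0,0,1),(2,0,0),(0,1,0)⟩,⟨11,20,(0,0,1),(0,0,0),(1,-1,0)⟩,⟨13,20,(0,0,1),(1,1,0),(0,0,0)⟩,⟨16,23,(0,0,0),(2,-1,0),(1,0,1)⟩,⟨11,21,(1,0,1),(0,0,0),(1,-1,0)⟩,⟨13,21,(1,0,1),(1,1,0),(0,0,0)⟩,⟨14,22,(2,-1,0),(2,0,0),(0,0,1)⟩,⟨15,23,(1,-1,0),(2,0,0),(1,0,1)⟩,⟨12,21,(1,0,1),(0,1,0),(0,0,0)⟩,⟨13,22,(2,0,0),(1,1,0),(0,0,1)⟩,⟨14,23,(2,-1,0),(2,0,0),(1,0,1)⟩,⟨12,22,(2,0,0),(0,1,0),(0,0,1)⟩,⟨13,23,(2,0,0),(1,1,0),(1,0,1)⟩,⟨12,23,(2,0,0),(0,1,0),(1,0,1)⟩,⟨11,23,(1,1,0),(0,0,0),(1,0,1)⟩,⟨10,23,(0,1,0),(0,0,0),(1,0,1)⟩]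
def p67 : List D := [⟨7,0,(2,0,0),(0,0,1),(1,-1,0)⟩,⟨13,0,(1,1,0),(0,0,1),(2,0,0)⟩,⟨8,0,(2,-1,0),(0,0,1),(0,0,0)⟩,⟨12,0,(0,1,0),(0,0,1),(2,0,0)⟩,⟨9,0,(1,-1,0),(0,0,1),(0,0,0)⟩,⟨11,0,(0,0,0),(0,0,1),(1,1,0)⟩,⟨12,3,(1,0,1),(2,-1,0),(2,0,0)⟩,⟨10,0,(0,0,0),(0,0,1),(0,1,0)⟩,⟨9,1,(1,-1,0),(1,0,1),(0,0,0)⟩,⟨11,1,(0,0,0),(1,0,1),(1,1,0)⟩,⟨12,2,(0,0,1),(2,-1,0),(2,0,0)⟩,⟨10,1,(0,0,0),(1,0,1),(0,1,0)⟩,⟨11,2,(0,0,1),(2,0,0),(1,1,0)⟩,⟨10,2,(0,0,1),(2,0,0),(0,1,0)⟩,⟨10,3,(1,0,1),(2,0,0),(0,1,0)⟩,⟨9,3,(1,0,1),(1,1,0),(0,0,0)⟩,⟨9,4,(2,0,0),(1,1,0),(0,0,1)⟩,⟨10,5,(2,-1,0),(2,0,0),(1,0,1)⟩,⟨9,5,(2,0,0),(1,1,0),(1,0,1)⟩,⟨8,5,(2,0,0),(0,1,0),(1,0,1)⟩,⟨7,5,(1,1,0),(0,0,0),(1,0,1)⟩,⟨6,5,(0,1,0),(0,0,0),(1,0,1)⟩,⟨7,4,(1,1,0),(0,0,0),(0,0,1)⟩,⟨6,4,(0,1,0),(0,0,0),(0,0,1)⟩]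
def p68 : List D := [⟨4,7,(0,0,0),(2,-1,0),(1,0,1)⟩,⟨5,7,(0,0,0),(1,-1,0),(1,0,1)⟩,⟨4,6,(0,0,0),(2,-1,0),(0,0,1)⟩,⟨5,6,(0,0,0),(1,-1,0),(0,0,1)⟩,⟨5,5,(1,0,-1),(1,-1,0),(0,0,0)⟩,⟨5,4,(2,0,-1),(1,-1,0),(0,0,0)⟩,⟨4,4,(2,0,-1),(2,-1,0),(0,0,0)⟩,⟨3,4,(2,0,-1),(2,0,0),(1,-1,0)⟩,⟨0,6,(0,1,0),(2,0,-1),(0,0,0)⟩,⟨2,4,(2,0,-1),(2,0,0),(2,-1,0)⟩,⟨3,3,(2,0,0),(1,0,1),(1,-1,0)⟩,⟨0,5,(0,1,0),(2,0,0),(1,0,-1)⟩,⟨2,3,(2,0,0),(1,0,1),(2,-1,0)⟩,⟨0,4,(0,1,0),(2,0,0),(2,0,-1)⟩,⟨1,3,(1,1,0),(1,0,1),(2,0,0)⟩,⟨2,2,(2,0,0),(0,0,1),(2,-1,0)⟩,⟨0,3,(0,1,0),(1,0,1),(2,0,0)⟩,⟨1,2,(1,1,0),(0,0,1),(2,0,0)⟩,⟨0,2,(0,1,0),(0,0,1),(2,0,0)⟩,⟨1,1,(1,1,0),(0,0,0),(1,0,1)⟩,⟨2,0,(2,0,0),(0,1,0),(0,0,1)⟩,⟨0,1,(0,1,0),(0,0,0),(1,0,1)⟩,⟨1,0,(1,1,0),(0,0,0),(0,0,1)⟩,⟨0,0,(0,1,0),(0,0,0),(0,0,1)⟩]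
def p69 : List D := [⟨21,23,(1,-1,0),(2,0,0),(1,0,1)⟩,⟨23,17,(1,0,1),(1,-1,0),(2,0,0)⟩,⟨23,23,(0,0,0),(1,-1,0),(1,0,1)⟩,⟨22,23,(0,0,0),(2,-1,0),(1,0,1)⟩,⟨23,18,(2,0,0),(1,-1,0),(2,0,-1)⟩,⟨23,22,(0,0,0),(1,-1,0),(0,0,1)⟩,⟨22,22,(0,0,0),(2,-1,0),(0,0,1)⟩,⟨23,19,(2,0,0),(1,-1,0),(1,0,-1)⟩,⟨23,21,(1,0,-1),(1,-1,0),(0,0,0)⟩,⟨22,21,(1,0,-1),(2,-1,0),(0,0,0)⟩,⟨23,20,(2,0,-1),(1,-1,0),(0,0,0)⟩,⟨21,21,(1,0,-1),(2,0,0),(1,-1,0)⟩,⟨22,20,(2,0,-1),(2,-1,0),(0,0,0)⟩,⟨21,20,(2,0,-1),(2,0,0),(1,-1,0)⟩,⟨20,20,(2,0,-1),(2,0,0),(2,-1,0)⟩,⟨21,19,(2,0,0),(1,0,1),(1,-1,0)⟩,⟨20,19,(2,0,0),(1,0,1),(2,-1,0)⟩,⟨19,19,(1,1,0),(1,0,1),(2,0,0)⟩,⟨18,19,(0,1,0),(1,0,1),(2,0,0)⟩,⟨18,18,(0,1,0),(0,0,1),(2,0,0)⟩,⟨19,17,(1,1,0),(0,0,0),(1,0,1)⟩,⟨18,17,(0,1,0),(0,0,0),(1,0,1)⟩,⟨19,16,(1,1,0),(0,0,0),(0,0,1)⟩,⟨18,16,(0,1,0),(0,0,0),(0,0,1)⟩]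
def p70 : List D := [⟨7,19,(1,1,0),(2,0,0),(1,0,-1)⟩,⟨6,19,(0,1,0),(2,0,0),(1,0,-1)⟩,⟨7,18,(1,1,0),(2,0,0),(2,0,-1)⟩,⟨6,18,(0,1,0),(2,0,0),(2,0,-1)⟩,⟨5,18,(0,0,0),(1,1,0),(2,0,-1)⟩,⟨4,18,(0,0,0),(0,1,0),(2,0,-1)⟩,⟨4,19,(0,0,0),(0,1,0),(1,0,-1)⟩,⟨6,23,(0,0,0),(1,0,1),(0,1,0)⟩,⟨4,20,(0,0,1),(0,1,0),(0,0,0)⟩,⟨5,23,(1,-1,0),(1,0,1),(0,0,0)⟩,⟨3,20,(0,0,1),(0,0,0),(1,-1,0)⟩,⟨4,21,(1,0,1),(0,1,0),(0,0,0)⟩,⟨4,23,(2,-1,0),(1,0,1),(0,0,0)⟩,⟨3,21,(1,0,1),(0,0,0),(1,-1,0)⟩,⟨3,23,(2,0,0),(1,0,1),(1,-1,0)⟩,⟨2,21,(1,0,1),(0,0,0),(2,-1,0)⟩,⟨2,23,(2,0,0),(1,0,1),(2,-1,0)⟩,⟨3,22,(2,0,0),(0,0,1),(1,-1,0)⟩,⟨1,23,(1,1,0),(1,0,1),(2,0,0)⟩,⟨2,22,(2,0,0),(0,0,1),(2,-1,0)⟩,⟨0,23,(0,1,0),(1,0,1),(2,0,0)⟩,⟨1,22,(1,1,0),(0,0,1),(2,0,0)⟩,⟨0,22,(0,1,0),(0,0,1),(2,0,0)⟩,⟨0,21,(0,1,0),(0,0,0),(1,0,1)⟩]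
def p71 : List D := [⟨17,0,(2,0,0),(0,0,1),(1,-1,0)⟩,⟨23,0,(1,1,0),(0,0,1),(2,0,0)⟩,⟨23,2,(1,1,0),(2,0,0),(2,0,-1)⟩,⟨18,0,(2,-1,0),(0,0,1),(0,0,0)⟩,⟨22,0,(0,1,0),(0,0,1),(2,0,0)⟩,⟨23,1,(1,1,0),(1,0,1),(2,0,0)⟩,⟨19,0,(1,-1,0),(0,0,1),(0,0,0)⟩,⟨21,0,(0,0,0),(0,0,1),(1,1,0)⟩,⟨22,1,(0,1,0),(1,0,1),(2,0,0)⟩,⟨20,0,(0,0,0),(0,0,1),(0,1,0)⟩,⟨21,1,(0,0,0),(1,0,1),(1,1,0)⟩,⟨20,1,(0,0,0),(1,0,1),(0,1,0)⟩,⟨21,2,(0,0,1),(2,0,0),(1,1,0)⟩,⟨20,2,(0,0,1),(2,0,0),(0,1,0)⟩,⟨19,2,(0,0,1),(1,1,0),(0,0,0)⟩,⟨20,3,(1,0,1),(2,0,0),(0,1,0)⟩,⟨19,3,(1,0,1),(1,1,0),(0,0,0)⟩,⟨19,4,(2,0,0),(1,1,0),(0,0,1)⟩,⟨19,5,(2,0,0),(1,1,0),(1,0,1)⟩,⟨18,5,(2,0,0),(0,1,0),(1,0,1)⟩,⟨17,5,(1,1,0),(0,0,0),(1,0,1)⟩,⟨16,5,(0,1,0),(0,0,0),(1,0,1)⟩,⟨17,4,(1,1,0),(0,0,0),(0,0,1)⟩,⟨16,4,(0,1,0),(0,0,0),(0,0,1)⟩]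
def big : List (List D) := [p64, p65, p66, p67, p68, p69, p70, p71]
def small : List (List D) := [p0, p1, p2, p3, p4, p5, p6, p7, p8, p9, p10, p11, p12, p13, p14, p15, p16, p17, p18, p19, p20, p21, p22, p23, p24, p25, p26, p27, p28, p29, p30, p31, p32, p33, p34, p35, p36, p37, p38, p39, p40, p41, p42, p43, p44, p45, p46, p47, p48, p49, p50, p51, p52, p53, p54, p55, p56, p57, p58, p59, p60, p61, p62, p63]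
def pT : List D := [⟨1,3,(0,1,0),(1,0,-1),(0,0,0)⟩,⟨1,2,(0,1,0),(1,0,0),(1,0,-1)⟩,⟨0,1,(0,0,0),(0,0,1),(0,1,0)⟩,⟨2,1,(1,0,0),(0,0,1),(1,-1,0)⟩,⟨1,1,(0,1,0),(0,0,1),(1,0,0)⟩,⟨1,0,(0,1,0),(0,0,0),(0,0,1)⟩]

lemma ok_T : conn pT = true ∧ chk 1 pT := by decide +kernel

lemma ok_small : ∀ L ∈ small, conn L = true ∧ chk 1 L := by decide +kernel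

lemma ok_big : ∀ L ∈ big, conn L = true ∧ chk 2 L := by decide +kernel

lemma sq_cover : ∀ x ∈ List.range 24, ∀ y ∈ List.range 24, ∃ L ∈ small ++ big, has L x y := by
  decide +kernel

lemma sq_in : ∀ L ∈ small ++ big, ∀ d ∈ L, 0 ≤ d.i ∧ d.i < 24 ∧ 0 ≤ d.j ∧ d.j < 24 := by
  decide +kernel

lemma sq_disj : (small ++ big).Pairwise fun L L' => ∀ d ∈ L, ∀ d' ∈ L', d.i = d'.i → d.j ≠ d'.j := by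
  decide +kernel

end Pool.Agent.H.MP_ea7ca7_co
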