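import Pool.Agent.H.MP_ea7ca7_co.C

namespace Pool.Agent.H.MP_ea7ca7_co

def Til (A : Finset (ℤ × ℤ)) (n : ℕ) : Prop :=
  ∃ L : List (Finset (ℤ × ℤ)), L.length = n ∧ (∀ Q ∈ L, IsNet Q) ∧ L.Pairwise Disjoint ∧
    ∀ c, c ∈ A ↔ ∃ Q ∈ L, c ∈ Q

lemma Til.sim {A : Finset (ℤ × ℤ)} {n m : ℕ} (h : Til A n) (hm : 0 < m) (t : ℤ × ℤ) :
    Til (sim m t A) n := by
  obtain ⟨L, h1, h2, h3, h4⟩ := h
  refine ⟨L.map (MP_ea7ca7_co.sim m t), by simpa using h1, ?_, ?_, ?_⟩
  · intro Q hQ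
    obtain ⟨Q', hQ', rfl⟩ := List.mem_map.1 hQ
    exact net_sim hm t (h2 Q' hQ')
  · rw [List.pairwise_map]
    refine h3.imp fun {a b} hab => ?_
    rw [Finset.disjoint_left] at hab ⊢
    intro c k1 k2
    exact hab ((mem_sim hm).1 k1) ((mem_sim hm).1 k2)
  · intro c
    rw [mem_sim hm, h4]
    constructor
    · rintro ⟨Q, k1, k2⟩
      exact ⟨_, List.mem_map.2 ⟨Q, k1, rfl⟩, (mem_sim hm).2 k2⟩
    · rintro ⟨Q, k1, k2⟩
      obtain ⟨Q', hQ', rfl⟩ := List.mem_map.1 k1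
      exact ⟨Q', hQ', (mem_sim hm).1 k2⟩

lemma Til.union {A B : Finset (ℤ × ℤ)} {n n' : ℕ} (h : Til A n) (h' : Til B n')
    (hd : Disjoint A B) : Til (A ∪ B) (n + n') := by
  obtain ⟨L, h1, h2, h3, h4⟩ := h
  obtain ⟨L', k1, k2, k3, k4⟩ := h'
  refine ⟨L ++ L', by simp [h1, k1], ?_, ?_, ?_⟩
  · intro Q hQ
    rcases List.mem_append.1 hQ with hQ | hQ
    · exact h2 Q hQ
    · exact k2 Q hQ
  · rw [List.pairwise_append]
    refine ⟨h3, k3, fun a ha b hb => ?_⟩
    rw [Finset.disjoint_left] at hd ⊢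
    intro c e1 e2
    exact hd ((h4 c).2 ⟨a, ha, e1⟩) ((k4 c).2 ⟨b, hb, e2⟩)
  · intro c
    simp only [Finset.mem_union, h4, k4, List.mem_append, or_and_right, exists_or]

lemma sim_sim {m m' : ℕ} (hm : 0 < m) (hm' : 0 < m') (A : Finset (ℤ × ℤ)) :
    sim m 0 (sim m' 0 A) = sim (m * m') 0 A := by
  ext c
  rw [mem_sim hm, mem_sim hm', mem_sim (Nat.mul_pos hm hm')]
  simp only [Prod.fst_zero, Prod.snd_zero, sub_zero, Nat.cast_mul]
  rw [Int.ediv_ediv_of_nonneg (Int.natCast_nonneg m), Int.ediv_ediv_of_nonneg (Int.natCast_nonneg m)]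

def ETil (A : Finset (ℤ × ℤ)) (n : ℕ) : Prop := ∃ m : ℕ, 0 < m ∧ Til (sim m 0 A) n

lemma ETil.union {A B : Finset (ℤ × ℤ)} {n n' : ℕ} (h : ETil A n) (h' : ETil B n')
    (hd : Disjoint A B) : ETil (A ∪ B) (n + n') := by
  obtain ⟨m, hm, h⟩ := h
  obtain ⟨m', hm', h'⟩ := h'
  have e1 := h.sim hm' 0
  have e2 := h'.sim hm 0
  rw [sim_sim hm' hm] at e1
  rw [sim_sim hm hm', mul_comm] at e2
  have hp := Nat.mul_pos hm' hm
  refine ⟨m' * m, hp, ?_⟩
  have e3 := e1.union e2 (by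
    rw [Finset.disjoint_left] at hd ⊢
    intro c k1 k2
    exact hd ((mem_sim hp).1 k1) ((mem_sim hp).1 k2))
  convert e3 using 1
  ext c
  simp only [mem_sim hp, Finset.mem_union]

lemma ETil.unit {n : ℕ} (h : ETil {(0, 0)} n) (c : ℤ × ℤ) : ETil {c} n := by
  obtain ⟨m, hm, h⟩ := h
  refine ⟨m, hm, ?_⟩
  have hm' : (m : ℤ) ≠ 0 := by exact_mod_cast hm.ne'
  convert h.sim one_pos (m * c.1, m * c.2) using 1
  ext x
  rw [mem_sim hm, mem_sim one_pos, mem_sim hm]
  simp only [Finset.mem_singleton, Prod.ext_iff, Prod.fst_zero, Prod.snd_zero, sub_zero, Nat.cast_one,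
    Int.ediv_one]
  rw [Int.sub_mul_ediv_left _ _ hm', Int.sub_mul_ediv_left _ _ hm']
  omega

lemma ETil.of_sim {A : Finset (ℤ × ℤ)} {n s : ℕ} (hs : 0 < s) (h : ETil (sim s 0 A) n) : ETil A n := by
  obtain ⟨m, hm, h⟩ := h
  rw [sim_sim hm hs] at h
  exact ⟨_, Nat.mul_pos hm hs, h⟩

lemma ETil.of_net {A : Finset (ℤ × ℤ)} (h : IsNet A) : ETil A 1 :=
  ⟨1, one_pos, [sim 1 0 A], rfl, by simpa using net_sim one_pos 0 h, by simp, by simp⟩

lemma base : ETil {(0, 0)} 72 := by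
  refine ⟨24, by norm_num, (small ++ big).map cellsOf, by decide, ?_, ?_, ?_⟩
  · intro Q hQ
    obtain ⟨L, hL, rfl⟩ := List.mem_map.1 hQ
    rcases List.mem_append.1 hL with hL | hL
    · exact net_of one_pos (ok_small L hL)
    · exact net_of two_pos (ok_big L hL)
  · rw [List.pairwise_map]
    refine sq_disj.imp fun {a b} hab => ?_
    rw [Finset.disjoint_left]
    intro c k1 k2
    obtain ⟨d, hd, e1, e2⟩ := mem_cellsOf.1 k1
    obtain ⟨d', hd', e1', e2'⟩ := mem_cellsOf.1 k2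
    exact hab d hd d' hd' (e1.trans e1'.symm) (e2.trans e2'.symm)
  · intro c
    rw [mem_sim (by norm_num)]
    simp only [Finset.mem_singleton, Prod.ext_iff, Prod.fst_zero, Prod.snd_zero, sub_zero]
    constructor
    · rintro ⟨k1, k2⟩
      push_cast at k1 k2
      obtain ⟨L, hL, h⟩ := sq_cover c.1.toNat (List.mem_range.2 (by omega)) c.2.toNat
        (List.mem_range.2 (by omega))
      refine ⟨_, List.mem_map.2 ⟨L, hL, rfl⟩, mem_cellsOf.2 ?_⟩
      rwa [Int.toNat_of_nonneg (by omega), Int.toNat_of_nonneg (by omega)] at h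
    · rintro ⟨Q, k1, k2⟩
      obtain ⟨L, hL, rfl⟩ := List.mem_map.1 k1
      obtain ⟨d, hd, e1, e2⟩ := mem_cellsOf.1 k2
      have := sq_in L hL d hd
      push_cast
      omega

lemma ETil.cells {A : Finset (ℤ × ℤ)} {n : ℕ} (h : ETil A n) :
    ∀ l : List (ℤ × ℤ), l.Nodup → (∀ c ∈ l, c ∉ A) → ETil (A ∪ l.toFinset) (n + 72 * l.length)
  | [], _, _ => by simpa using h
  | c :: l, h1, h2 => by
    rw [List.nodup_cons] at h1
    have e := (ETil.cells h l h1.2 fun x hx => h2 x (List.mem_cons_of_mem _ hx)).union (base.unit c)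
      (by simp [h1.1, h2 c (by simp)])
    convert e using 1
    · ext x; simp
    · simp; ring

lemma net_T : IsNet (cellsOf pT) := net_of one_pos ok_T

lemma step1 {n : ℕ} (h : ETil {(0, 0)} n) : ETil {(0, 0)} (n + 216) := by
  have e := h.cells [(0, 1), (1, 0), (1, 1)] (by decide) (by decide)
  refine ETil.of_sim two_pos ?_
  convert e using 1
  · decide +kernel
  · simp

lemma step2 {n : ℕ} (h : ETil {(0, 0)} n) : ETil {(0, 0)} (n + 649) := by
  have e := (h.union (ETil.of_net net_T) (by decide +kernel)).cells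
    [(2, 0), (3, 0), (3, 1), (0, 2), (2, 2), (3, 2), (0, 3), (2, 3), (3, 3)] (by decide) (by decide +kernel)
  refine ETil.of_sim four_pos ?_
  convert e using 1
  · decide +kernel
  · simp

lemma all_sq (a b : ℕ) : ETil {(0, 0)} (72 + 216 * a + 649 * b) := by
  induction b with
  | zero =>
    induction a with
    | zero => exact base
    | succ a ih => convert step1 ih using 1; ring
  | succ b ih => convert step2 ih using 1; ring

lemma all_T (a b : ℕ) : ETil (cellsOf pT) (432 + 216 * a + 649 * b) := by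
  have e := ((all_sq a b).unit (1, 0)).cells [(1, 1), (1, 2), (1, 3), (0, 1), (2, 1)] (by decide)
    (by decide)
  convert e using 1
  · decide +kernel
  · simp; ring

theorem main (k : ℕ) (hk : 139966 < k) : ∃ P, IsRepCube P k := by
  have e : k = 432 + 216 * ((k - 432 - 649 * ((k - 432) % 216)) / 216) + 649 * ((k - 432) % 216) := by
    omega
  obtain ⟨m, hm, L, h1, h2, h3, h4⟩ := e ▸ all_T _ _
  subst h1
  refine ⟨_, net_sim hm 0 net_T, L.get, fun i => h2 _ (List.get_mem _ _), ?_, ?_⟩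
  · intro i j hij
    rcases lt_or_gt_of_ne hij with h | h
    · exact List.pairwise_iff_get.1 h3 i j h
    · exact (List.pairwise_iff_get.1 h3 j i h).symm
  · intro c
    rw [h4]
    constructor
    · rintro ⟨Q, k1, k2⟩
      obtain ⟨i, rfl⟩ := List.get_of_mem k1
      exact ⟨i, k2⟩
    · rintro ⟨i, k2⟩
      exact ⟨_, List.get_mem _ _, k2⟩

end Pool.Agent.H.MP_ea7ca7_co
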